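import Pool.Agent.W2helper22.CW.Dist
import Pool.Agent.W2helper26.CN.BLK

/-!
# The hard distribution for the clique function, with the number of alternations

The proof is that of `Pool.Agent.W2helper26.CN.des_gap_block`.
-/

set_option autoImplicit false

namespace Pool.Agent.W2helper22.CW

open Finset Pool.Agent.H520R2 Pool.Agent.H520R2.NM Pool.Agent.H559R4 Pool.Agent.H559R8
  Pool.Agent.H559R9 Pool.Agent.H559R10 Pool.Agent.W2helper26.CN

open Classical in
theorem des_gap_blockD {κ s b c S P n : ℕ} (hκ : 2 ≤ κ) (_hs : κ + 1 ≤ s) (hb : 2 ≤ b) (hc : 1 ≤ c)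
    (hP : 0 < P) (D : Des n s (2 ^ b) P κ)
    (hq : 8 * c * (64 * ((κ + 1) * b * κ * κ)) ≤ 2 ^ b)
    (hS : 4 * c * (S * apx2 κ b ^ 2) ≤ 2 ^ ((κ + 1) * b)) :
    ∃ (Λ : Type) (_ : Fintype Λ) (_ : Nonempty Λ) (x : Λ → Sym2 (Fin n) → Bool),
      (∀ l, PromiseGap s (κ + 1) (x l)) ∧
      ∀ (N : ℕ) (C : Circuit (Sym2 (Fin n)) N) (out : Wire (Sym2 (Fin n)) N) (K : ℕ),
        C.size + C.fanins.sum ≤ S →
        (∀ x : ℕ → Sym2 (Fin n) → Bool, (∀ i < P, x i ≤ x (i + 1)) → ((Finset.range P).filter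
          (fun i => C.probes (x i) ≠ C.probes (x (i + 1)))).card + 1 ≤ K) →
        c * K ≤ P →
        2 * c * (univ.filter (fun l =>
          RightGap s (κ + 1) (x l) (out.eval (x l) (C.vals (x l))))).card <
          (c + 2) * Fintype.card Λ := by
  have : Nonempty (Fin κ) := ⟨⟨0, by omega⟩⟩
  have : Nonempty (Fin (2 ^ b)) := ⟨⟨0, by positivity⟩⟩
  let W := Fin s × Fin (2 ^ b)
  let E' : (Fin P → Set (Sym2 W)) → Sym2 (Fin n) → Bool := fun y =>
    D.enc (fun j => SimpleGraph.fromEdgeSet (y j))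
  obtain ⟨Λ, hΛ1, hΛ2, Y, yes, hyes, hno, hD⟩ := gap_distD (ι := Sym2 (Fin n)) (α := Sym2 W)
    (Pt := Fin s → Fin (2 ^ b)) (Ng := W → Fin κ) P hP
    (fun π => (posG (fun x : W => x) π).edgeSet) (fun ω => (negG ω).edgeSet) c S E'
    (fun y y' h => D.enc_mono (fun j => SimpleGraph.fromEdgeSet_mono (h j)))
    (by
      intro z J g hg
      have hg' := base_conv D.enc (fun Y J f hf => D.enc_base Y J f hf) z J g S hg
      have key := adv_avg_gap (k := s) (κ := κ) (q := 2 ^ b) (B := (κ + 1) * b) (J := κ)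
        (r := 64 * ((κ + 1) * b * κ * κ)) (s := S) (c := c) hκ hc
        (Nat.mul_pos (by omega) (by omega)) (by omega) le_rfl Nat.lt_two_pow_self hq
        (by
          rw [← pow_mul, mul_comm b]
          exact hS)
        (by
          have h4 : 2 ^ ((κ + 1) * b) ≤ 4 ^ ((κ + 1) * b) := Nat.pow_le_pow_left (by norm_num) _
          unfold apx2 at hS
          refine le_trans ?_ (hS.trans h4)
          apply Nat.mul_le_mul_right
          omega)
        (g ∘ fun G : SimpleGraph W => G.edgeSet) hg'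
      exact key)
  -- the graphs
  have hgr : ∀ l, SimpleGraph.fromEdgeSet {e | E' (Y l) e = true} =
      D.union (fun j => SimpleGraph.fromEdgeSet (Y l j)) := fun l => D.enc_graph _
  have h1 : ∀ l, yes l → ¬ (D.union (fun j => SimpleGraph.fromEdgeSet (Y l j))).CliqueFree s := by
    intro l hl
    obtain ⟨j, π, hj⟩ := hyes l hl
    apply des_union_clique D _ j
    simp only [hj, SimpleGraph.fromEdgeSet_edgeSet]
    exact tcl_posG π
  have h2 : ∀ l, ¬ yes l →
      (D.union (fun j => SimpleGraph.fromEdgeSet (Y l j))).CliqueFree (κ + 1) := by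
    intro l hl
    by_contra hcon
    obtain ⟨p, hp⟩ := des_block_clique D (by omega) _ hcon
    apply hp
    rcases hno l hl p with ⟨ω, hω⟩ | h0
    · rw [hω, SimpleGraph.fromEdgeSet_edgeSet]
      exact negG_cliqueFree ω
    · rw [h0, SimpleGraph.fromEdgeSet_empty]
      exact SimpleGraph.cliqueFree_bot (by omega)
  refine ⟨Λ, hΛ1, hΛ2, fun l => E' (Y l), ?_, ?_⟩
  · intro l
    unfold PromiseGap
    simp only [hgr]
    by_cases hl : yes l
    · exact Or.inl (h1 l hl)
    · exact Or.inr (h2 l hl)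
  · intro N C out K hC1 hC0 hC2
    refine lt_of_le_of_lt (Nat.mul_le_mul_left _ (card_le_card ?_)) (hD N C out K hC1 hC0 hC2)
    intro l hl
    rw [mem_filter] at hl ⊢
    refine ⟨mem_univ _, ?_⟩
    obtain ⟨hr1, hr2⟩ := hl.2
    simp only [hgr] at hr1 hr2
    constructor
    · intro ho
      by_contra hl
      have := hr2 (h2 l hl)
      rw [ho] at this
      exact absurd this (by simp)
    · intro hl
      exact hr1 (h1 l hl)

end Pool.Agent.W2helper22.CW
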