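import Pool.Agent.W2helper22.AL.Bool
import Pool.Agent.W2helper22.CU.AltDefs

/-! Conversion between two kinds of circuits. -/

set_option autoImplicit false

namespace Pool.Agent.W2helper22.CW

open Finset
open Pool.Agent.W2helper22.CU (IsNot Alternates Nesting)
open Pool.Agent

variable {N : ℕ}

/-- the gate -/
def toGate {s : ℕ} : W2helper76.RW.Gate (Fin N) s → H540R2.Gate N
  | .inp p => .or (.var p) (.var p)
  | .const b => .or (.const b) (.const b)
  | .not a => .not (.gate a)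
  | .and a b => .and (.gate a) (.gate b)
  | .or a b => .or (.gate a) (.gate b)

lemma wires_gate {i j : ℕ} (h : (H540R2.Node.gate i : H540R2.Node N).wires j ≠ 0) : i = j := by
  by_contra hne
  exact h (by simp [H540R2.Node.wires, hne])

lemma toGate_wires (C : W2helper76.RW.Circuit (Fin N)) (i : Fin C.s) {j : ℕ}
    (h : (toGate (C.gate i)).wires j ≠ 0) : ∃ a : Fin C.s, a < i ∧ (a : ℕ) = j ∧
      (C.gate i = .not a ∨ (∃ b, C.gate i = .and a b ∨ C.gate i = .and b a) ∨
        ∃ b, C.gate i = .or a b ∨ C.gate i = .or b a) := by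
  rcases hC : C.gate i with p | b | a | ⟨a, b⟩ | ⟨a, b⟩
  · rw [hC] at h; exact absurd rfl h
  · rw [hC] at h; exact absurd rfl h
  · rw [hC] at h
    exact ⟨a, C.not_lt _ _ hC, wires_gate (N := N) h, Or.inl rfl⟩
  · rw [hC] at h
    have h2 : (H540R2.Node.gate a : H540R2.Node N).wires j ≠ 0 ∨
        (H540R2.Node.gate b : H540R2.Node N).wires j ≠ 0 := by
      by_contra hcon
      push Not at hcon
      exact h (by simp only [toGate, H540R2.Gate.wires]; omega)
    rcases h2 with h2 | h2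
    · exact ⟨a, (C.and_lt _ _ _ hC).1, wires_gate h2, Or.inr (Or.inl ⟨b, Or.inl rfl⟩)⟩
    · exact ⟨b, (C.and_lt _ _ _ hC).2, wires_gate h2, Or.inr (Or.inl ⟨a, Or.inr rfl⟩)⟩
  · rw [hC] at h
    have h2 : (H540R2.Node.gate a : H540R2.Node N).wires j ≠ 0 ∨
        (H540R2.Node.gate b : H540R2.Node N).wires j ≠ 0 := by
      by_contra hcon
      push Not at hcon
      exact h (by simp only [toGate, H540R2.Gate.wires]; omega)
    rcases h2 with h2 | h2
    · exact ⟨a, (C.or_lt _ _ _ hC).1, wires_gate h2, Or.inr (Or.inr ⟨b, Or.inl rfl⟩)⟩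
    · exact ⟨b, (C.or_lt _ _ _ hC).2, wires_gate h2, Or.inr (Or.inr ⟨a, Or.inr rfl⟩)⟩

/-- the circuit -/
def toH (C : W2helper76.RW.Circuit (Fin N)) : H540R2.Circuit N where
  size := C.s
  gate g := if h : g < C.s then toGate (C.gate ⟨g, h⟩) else .or (.const true) (.const true)
  out := .gate C.out
  gate_lt i hi j hj := by
    simp only [dif_pos hi] at hj
    obtain ⟨a, h1, h2, -⟩ := toGate_wires C ⟨i, hi⟩ hj
    rw [← h2]
    exact h1
  out_lt j hj := by
    have := wires_gate hj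
    rw [← this]
    exact C.out.2

lemma toH_gate (C : W2helper76.RW.Circuit (Fin N)) (i : Fin C.s) :
    (toH C).gate i = toGate (C.gate i) := by
  show (if h : (i : ℕ) < C.s then toGate (C.gate ⟨i, h⟩) else _) = _
  rw [dif_pos i.2]

lemma toH_val (C : W2helper76.RW.Circuit (Fin N)) (x : Fin N → Bool) :
    ∀ (k : ℕ) (i : Fin C.s), (i : ℕ) = k → (toH C).val x k = C.val x i := by
  intro k
  induction k using Nat.strong_induction_on with
  | _ k ih =>
    intro i hi
    subst hi
    rw [H540R2.Circuit.val, toH_gate]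
    have key : ∀ a : Fin C.s, a < i → (if _h : (a : ℕ) < (i : ℕ) then (toH C).val x a else false) =
        C.val x a := fun a ha => by
      rw [dif_pos (show (a : ℕ) < (i : ℕ) from ha)]
      exact ih a ha a rfl
    rcases hC : C.gate i with p | b | a | ⟨a, b⟩ | ⟨a, b⟩
    · rw [C.val_inp hC]
      show (x p || x p) = x p
      simp
    · rw [C.val_const hC]
      show (b || b) = b
      simp
    · rw [C.val_not hC]
      show (!(if _h : (a : ℕ) < (i : ℕ) then (toH C).val x a else false)) = _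
      rw [key a (C.not_lt _ _ hC)]
    · rw [C.val_and hC]
      show ((if _h : (a : ℕ) < (i : ℕ) then (toH C).val x a else false) &&
        (if _h : (b : ℕ) < (i : ℕ) then (toH C).val x b else false)) = _
      rw [key a (C.and_lt _ _ _ hC).1, key b (C.and_lt _ _ _ hC).2]
    · rw [C.val_or hC]
      show ((if _h : (a : ℕ) < (i : ℕ) then (toH C).val x a else false) ||
        (if _h : (b : ℕ) < (i : ℕ) then (toH C).val x b else false)) = _
      rw [key a (C.or_lt _ _ _ hC).1, key b (C.or_lt _ _ _ hC).2]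

lemma toH_isNot (C : W2helper76.RW.Circuit (Fin N)) {g : ℕ} (h : IsNot (toH C) g) :
    ∃ (i a : Fin C.s), (i : ℕ) = g ∧ C.gate i = .not a := by
  obtain ⟨hg, a, ha⟩ := h
  have hg' : g < C.s := hg
  have h2 := toH_gate C ⟨g, hg'⟩
  have h3 : (toH C).gate g = toGate (C.gate ⟨g, hg'⟩) := h2
  rw [ha] at h3
  rcases hC : C.gate ⟨g, hg'⟩ with p | b | a' | ⟨a', b⟩ | ⟨a', b⟩
  · rw [hC] at h3; exact absurd h3 (by simp [toGate])
  · rw [hC] at h3; exact absurd h3 (by simp [toGate])
  · exact ⟨⟨g, hg'⟩, a', rfl, hC⟩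
  · rw [hC] at h3; exact absurd h3 (by simp [toGate])
  · rw [hC] at h3; exact absurd h3 (by simp [toGate])

open Classical in
theorem conv (C : W2helper76.RW.Circuit (Fin N)) (h : ℕ) (lev : Fin C.s → ℕ)
    (hl : AL.Nesting C h lev) : ∃ (C' : H540R2.Circuit N) (lev' : ℕ → ℕ),
      (∀ x, C'.eval x = C.eval x) ∧ C'.size = C.s ∧ Nesting C' h lev' ∧
      ∀ l, ((range C'.size).filter (fun g => IsNot C' g ∧ lev' g = l)).card ≤
        (univ.filter (fun i => C.IsNot i ∧ lev i = l)).card := by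
  obtain ⟨lev', hlev'⟩ : ∃ lev' : ℕ → ℕ, ∀ i : Fin C.s, lev' i = lev i :=
    ⟨fun g => if h : g < C.s then lev ⟨g, h⟩ else 0, fun i => by
      show (if h : (i : ℕ) < C.s then lev ⟨i, h⟩ else 0) = _
      rw [dif_pos i.2]⟩
  obtain ⟨hl1, hl2, hl3, hl4⟩ := hl
  refine ⟨toH C, lev', fun x => toH_val C x C.out C.out rfl, rfl, ⟨fun g hg => ?_, fun g hg => ?_⟩,
    fun l => ?_⟩
  · have hg' : g < C.s := hg
    have e : lev' g = lev ⟨g, hg'⟩ := hlev' ⟨g, hg'⟩
    refine ⟨by rw [e]; exact hl4 _, fun j hj => ?_⟩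
    have h3 : (toH C).gate g = toGate (C.gate ⟨g, hg'⟩) := toH_gate C ⟨g, hg'⟩
    rw [h3] at hj
    obtain ⟨a, h1, h2, h4⟩ := toGate_wires C ⟨g, hg'⟩ hj
    rw [← h2, e, hlev' a]
    rcases h4 with h4 | ⟨b, h4 | h4⟩ | ⟨b, h4 | h4⟩
    · exact (hl1 _ _ h4).le
    · exact (hl2 _ _ _ h4).1
    · exact (hl2 _ _ _ h4).2
    · exact (hl3 _ _ _ h4).1
    · exact (hl3 _ _ _ h4).2
  · obtain ⟨i, a, h1, h2⟩ := toH_isNot C hg
    subst h1
    have h5 := hl1 _ _ h2
    rw [hlev' i]
    refine ⟨by omega, fun j hj => ?_⟩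
    rw [toH_gate, h2] at hj
    have h6 := wires_gate (N := N) hj
    rw [← h6, hlev' a]
    exact h5
  · refine Finset.card_le_card_of_injOn (fun g => if h : g < C.s then ⟨g, h⟩ else C.out) ?_ ?_
    · intro g hg
      obtain ⟨h1, h2, h3⟩ := Finset.mem_filter.1 (Finset.mem_coe.1 hg)
      have h4 : g < C.s := Finset.mem_range.1 h1
      obtain ⟨i, a, h5, h6⟩ := toH_isNot C h2
      subst h5
      simp only [dif_pos i.2]
      rw [Finset.mem_coe, Finset.mem_filter]
      refine ⟨mem_univ _, ⟨a, h6⟩, ?_⟩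
      rw [← h3, hlev' i]
    · intro g hg g' hg' he
      have h4 : g < C.s := Finset.mem_range.1 (Finset.mem_filter.1 (Finset.mem_coe.1 hg)).1
      have h4' : g' < C.s := Finset.mem_range.1 (Finset.mem_filter.1 (Finset.mem_coe.1 hg')).1
      simp only [dif_pos h4, dif_pos h4'] at he
      exact congrArg Fin.val he

end Pool.Agent.W2helper22.CW
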