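import Pool.Agent.H559R10.GapDist
import Pool.Agent.H560R2.Av3

/-!
# The chain argument on average and the hard distribution, with the number of alternations

The proofs are those of `Pool.Agent.H560R2.rchain` and `Pool.Agent.H559R10.gap_dist`.
-/

set_option autoImplicit false
set_option linter.unusedSectionVars false

namespace Pool.Agent.W2helper22.CW

open Finset Pool.Agent.H520R2 Pool.Agent.H520R2.NM Pool.Agent.H560R2

section

variable {ι α : Type} {m : ℕ} {Pt Ng : Type}

open Classical in
/-- The chain argument on average. -/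
theorem rchainD [Fintype Pt] [Fintype Ng] [Nonempty Ng] {n : ℕ} (pos : Pt → Set α)
    (neg : Ng → Set α) (c : ℕ)
    (E : (Fin m → Set α) → ι → Bool) (hmono : ∀ y y', (∀ j, y j ⊆ y' j) → E y ≤ E y')
    (C : Circuit ι n) (out : Wire ι n) (K : ℕ)
    (hK : ∀ x : ℕ → ι → Bool, (∀ i < m, x i ≤ x (i + 1)) → ((Finset.range m).filter
      (fun i => C.probes (x i) ≠ C.probes (x (i + 1)))).card + 1 ≤ K)
    (hadv : ∀ (z : Fin m → Set α) (J : Fin m) (g : Set α → Bool),
      MComp (blockBase E z J) (C.size + C.fanins.sum) g →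
      ((univ.filter (fun p => g (pos p) = true)).card : ℚ) * Fintype.card Ng * (2 * c) ≤
        ((univ.filter (fun ω => g (neg ω) = true)).card : ℚ) * Fintype.card Pt * (2 * c) +
          Fintype.card Ng * Fintype.card Pt) :
    (∑ i : Fin m, ∑ y : Fin m → Ng, ((univ.filter (fun p : Pt =>
        out.eval (E (Function.update (stt neg y i) i (pos p)))
          (C.vals (E (Function.update (stt neg y i) i (pos p)))) = true)).card : ℚ)) * (2 * c) ≤
      (∑ i : Fin m, ((univ.filter (fun y : Fin m → Ng =>
        out.eval (E (stt neg y (i + 1))) (C.vals (E (stt neg y (i + 1)))) = true)).card : ℚ)) *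
          Fintype.card Pt * (2 * c) +
      (Fintype.card (Fin m → Ng) : ℚ) * Fintype.card Pt *
        (2 * c * ((K : ℚ) - 1) + m) := by
  set N : ℚ := (Fintype.card Ng : ℚ) with hN
  set P : ℚ := (Fintype.card Pt : ℚ) with hP
  have hNpos : 0 < N := by
    rw [hN]
    exact_mod_cast Fintype.card_pos
  have hP0 : 0 ≤ P := by rw [hP]; exact Nat.cast_nonneg _
  have hc0 : (0 : ℚ) ≤ c := Nat.cast_nonneg _
  let O : (ι → Bool) → Prop := fun x => out.eval x (C.vals x) = true
  let b : Fin m → (Fin m → Ng) → ℚ := fun i y => ((univ.filter (fun p : Pt =>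
    O (E (Function.update (stt neg y i) i (pos p))))).card : ℚ)
  let a : Fin m → (Fin m → Ng) → ℚ := fun i y => if O (E (stt neg y (i + 1))) then 1 else 0
  let ch : Fin m → (Fin m → Ng) → ℚ := fun i y =>
    if C.probes (E (stt neg y i)) ≠ C.probes (E (stt neg y (i + 1))) then 1 else 0
  have hstep : ∀ i y, b i y * N * (2 * c) ≤
      (∑ ω : Ng, (a i (Function.update y i ω) + ch i (Function.update y i ω))) * P * (2 * c) +
        N * P := by
    intro i y
    have hle : ∀ X, E (stt neg y i) ≤ E (Function.update (stt neg y i) i X) := by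
      intro X
      apply hmono
      intro j
      by_cases hj : j = i
      · subst hj
        rw [Function.update_self]
        rintro v ⟨h1, h2⟩
        omega
      · rw [Function.update_of_ne hj]
    obtain ⟨G, hG, hGx⟩ : ∃ G : Set α → Bool,
        MComp (blockBase E (stt neg y i) i) (C.size + C.fanins.sum) G ∧
        ∀ X, (G X = true ↔ (C.probes (E (Function.update (stt neg y i) i X)) ≠
          C.probes (E (stt neg y i)) ∨ O (E (Function.update (stt neg y i) i X)))) := by
      obtain ⟨g, hg, hgx⟩ := flip2 C out (E (stt neg y i))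
      exact ⟨_, hg.comp (B' := blockBase E (stt neg y i) i)
        (fun X => E (Function.update (stt neg y i) i X)) (fun b hb => ⟨b, hb, rfl⟩),
        fun X => hgx _ (hle X)⟩
    have h1 := hadv (stt neg y i) i _ hG
    have hb : b i y ≤ ((univ.filter (fun p => G (pos p) = true)).card : ℚ) := by
      simp only [b]
      have : (univ.filter (fun p : Pt => O (E (Function.update (stt neg y i) i (pos p))))) ⊆
          (univ.filter (fun p => G (pos p) = true)) := by
        intro p hp
        rw [Finset.mem_filter] at hp ⊢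
        exact ⟨mem_univ _, (hGx _).mpr (Or.inr hp.2)⟩
      exact_mod_cast Finset.card_le_card this
    have hw : ((univ.filter (fun ω => G (neg ω) = true)).card : ℚ) ≤
        ∑ ω : Ng, (a i (Function.update y i ω) + ch i (Function.update y i ω)) := by
      rw [Finset.card_filter]
      push_cast
      apply Finset.sum_le_sum
      intro ω _
      have ha0 : (0 : ℚ) ≤ a i (Function.update y i ω) := by
        simp only [a]; split_ifs <;> norm_num
      have hc0 : (0 : ℚ) ≤ ch i (Function.update y i ω) := by
        simp only [ch]; split_ifs <;> norm_num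
      by_cases hgω : G (neg ω) = true
      · rw [if_pos hgω]
        rcases (hGx _).mp hgω with h | h
        · have : ch i (Function.update y i ω) = 1 := by
            simp only [ch]
            rw [if_pos]
            rw [stt_update, stt_succ]
            exact fun h' => h h'.symm
          rw [this]
          linarith
        · have : a i (Function.update y i ω) = 1 := by
            simp only [a]
            rw [if_pos]
            rw [stt_succ]
            exact h
          rw [this]
          linarith
      · rw [if_neg hgω]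
        linarith
    calc b i y * N * (2 * c) ≤ ((univ.filter (fun p => G (pos p) = true)).card : ℚ) * N *
          (2 * c) := by
          apply mul_le_mul_of_nonneg_right _ (by positivity)
          exact mul_le_mul_of_nonneg_right hb hNpos.le
      _ ≤ _ := h1
      _ ≤ _ := by
          have h2 := mul_le_mul_of_nonneg_right hw (mul_nonneg hP0 (by positivity : (0 : ℚ) ≤ 2 * c))
          linarith
  have hsum : ∀ i, (∑ y, b i y) * (2 * c) ≤
      (∑ y, (a i y + ch i y)) * P * (2 * c) + Fintype.card (Fin m → Ng) * P := by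
    intro i
    have h1 : (∑ y, b i y) * N * (2 * c) ≤
        (∑ y, ∑ ω : Ng, (a i (Function.update y i ω) + ch i (Function.update y i ω))) * P * (2 * c) +
          Fintype.card (Fin m → Ng) * (N * P) := by
      rw [Finset.sum_mul, Finset.sum_mul, Finset.sum_mul, Finset.sum_mul]
      have : (Fintype.card (Fin m → Ng) : ℚ) * (N * P) = ∑ _y : Fin m → Ng, N * P := by
        rw [Finset.sum_const, Finset.card_univ, nsmul_eq_mul]
      rw [this, ← Finset.sum_add_distrib]
      exact Finset.sum_le_sum (fun y _ => hstep i y)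
    rw [sum_update i (fun y => a i y + ch i y)] at h1
    refine le_of_mul_le_mul_right ?_ hNpos
    calc (∑ y, b i y) * (2 * c) * N = (∑ y, b i y) * N * (2 * c) := by ring
      _ ≤ _ := h1
      _ = _ := by rw [← hN]; ring
  have hall : (∑ i, ∑ y, b i y) * (2 * c) ≤
      (∑ i, ∑ y, a i y) * P * (2 * c) + (∑ i, ∑ y, ch i y) * P * (2 * c) +
        m * (Fintype.card (Fin m → Ng) * P) := by
    rw [Finset.sum_mul]
    refine (Finset.sum_le_sum (fun i _ => hsum i)).trans (le_of_eq ?_)
    rw [Finset.sum_add_distrib, Finset.sum_const, Finset.card_univ, Fintype.card_fin, nsmul_eq_mul]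
    congr 1
    rw [← add_mul, ← add_mul, ← Finset.sum_add_distrib, ← Finset.sum_mul, ← Finset.sum_mul]
    congr 2
    apply Finset.sum_congr rfl
    intro i _
    rw [Finset.sum_add_distrib]
  have hch : (∑ i, ∑ y, ch i y) ≤
      Fintype.card (Fin m → Ng) * ((K : ℚ) - 1) := by
    rw [Finset.sum_comm]
    have h1 : ∀ y : Fin m → Ng, ∑ i, ch i y ≤ ((K : ℚ) - 1) := by
      intro y
      have h2 := hK (fun i => E (stt neg y i)) (fun i _ => hmono _ _ (stt_mono neg y i))
      have h3 : ∑ i : Fin m, ch i y = (((Finset.range m).filter (fun i =>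
          C.probes (E (stt neg y i)) ≠ C.probes (E (stt neg y (i + 1))))).card : ℚ) := by
        rw [Finset.card_filter, Finset.sum_range]
        push_cast
        rfl
      rw [h3]
      have h4 : ((((Finset.range m).filter (fun i =>
          C.probes (E (stt neg y i)) ≠ C.probes (E (stt neg y (i + 1))))).card + 1 : ℕ) : ℚ) ≤
          (K : ℕ) := by exact_mod_cast h2
      push_cast at h4 ⊢
      linarith
    calc ∑ y, ∑ i, ch i y ≤ ∑ _y : Fin m → Ng, ((K : ℚ) - 1) :=
          Finset.sum_le_sum (fun y _ => h1 y)
      _ = _ := by rw [Finset.sum_const, Finset.card_univ, nsmul_eq_mul]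
  have ha : (∑ i, ∑ y, a i y) = ∑ i : Fin m, ((univ.filter (fun y : Fin m → Ng =>
      O (E (stt neg y (i + 1))))).card : ℚ) := by
    apply Finset.sum_congr rfl
    intro i _
    rw [Finset.card_filter]
    push_cast
    rfl
  rw [ha] at hall
  calc _ ≤ _ := hall
    _ ≤ (∑ i : Fin m, ((univ.filter (fun y : Fin m → Ng =>
      O (E (stt neg y (i + 1))))).card : ℚ)) * P * (2 * c) +
        (Fintype.card (Fin m → Ng) * ((K : ℚ) - 1)) * P * (2 * c) +
        m * (Fintype.card (Fin m → Ng) * P) := by
        have := mul_le_mul_of_nonneg_right hch (mul_nonneg hP0 (by positivity : (0 : ℚ) ≤ 2 * c))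
        linarith
    _ = _ := by ring

end

open Classical in
/-- A hard distribution for a promise problem (compare `H559R8.hard_dist'`). -/
theorem gap_distD {ι α Pt Ng : Type} [Fintype Pt] [Nonempty Pt] [Fintype Ng] [Nonempty Ng]
    (m : ℕ) (hm : 0 < m) (pos : Pt → Set α) (neg : Ng → Set α) (c S : ℕ)
    (E : (Fin m → Set α) → ι → Bool) (hmono : ∀ y y', (∀ j, y j ⊆ y' j) → E y ≤ E y')
    (hadv : ∀ (z : Fin m → Set α) (J : Fin m) (g : Set α → Bool),
      MComp (blockBase E z J) S g →
      ((univ.filter (fun p => g (pos p) = true)).card : ℚ) * Fintype.card Ng * (2 * c) ≤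
        ((univ.filter (fun ω => g (neg ω) = true)).card : ℚ) * Fintype.card Pt * (2 * c) +
          Fintype.card Ng * Fintype.card Pt) :
    ∃ (Λ : Type) (_ : Fintype Λ) (_ : Nonempty Λ) (D : Λ → Fin m → Set α) (yes : Λ → Prop),
      (∀ l, yes l → ∃ j p, D l j = pos p) ∧
      (∀ l, ¬ yes l → ∀ j, (∃ ω, D l j = neg ω) ∨ D l j = ∅) ∧
      ∀ (n : ℕ) (C : Circuit ι n) (out : Wire ι n) (K : ℕ), C.size + C.fanins.sum ≤ S →
        (∀ x : ℕ → ι → Bool, (∀ i < m, x i ≤ x (i + 1)) → ((Finset.range m).filter
          (fun i => C.probes (x i) ≠ C.probes (x (i + 1)))).card + 1 ≤ K) →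
        c * K ≤ m →
        2 * c * (univ.filter (fun l =>
          (out.eval (E (D l)) (C.vals (E (D l))) = true ↔ yes l))).card <
          (c + 2) * Fintype.card Λ := by
  have : Nonempty (Fin m) := ⟨⟨0, hm⟩⟩
  let Λ0 := Fin m × (Fin m → Ng) × Pt
  let Dp : Λ0 → ι → Bool := fun l => E (Function.update (stt neg l.2.1 l.1) l.1 (pos l.2.2))
  let Dn : Λ0 → ι → Bool := fun l => E (stt neg l.2.1 (l.1 + 1))
  let Ep : Λ0 → Fin m → Set α := fun l =>
    Function.update (stt neg l.2.1 l.1) l.1 (pos l.2.2)
  let En : Λ0 → Fin m → Set α := fun l => stt neg l.2.1 (l.1 + 1)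
  refine ⟨Λ0 ⊕ Λ0, inferInstance, inferInstance, Sum.elim Ep En,
    Sum.elim (fun _ => True) (fun _ => False), ?_, ?_, ?_⟩
  · rintro (l | l) hl
    · exact ⟨l.1, l.2.2, Function.update_self _ _ _⟩
    · exact hl.elim
  · rintro (l | l) hl j
    · exact absurd trivial hl
    · by_cases hjl : j.val < l.1 + 1
      · left
        refine ⟨l.2.1 j, ?_⟩
        simp only [Sum.elim_inr, En]
        ext v
        simp [stt, hjl]
      · right
        simp only [Sum.elim_inr, En]
        ext v
        simp [stt, hjl]
  intro n C out K hS hKK hK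
  have hEe : ∀ l, E (Sum.elim Ep En l) = Sum.elim Dp Dn l := by
    rintro (l | l) <;> rfl
  simp only [hEe]
  have hch := rchainD pos neg c E hmono C out K hKK (by
    intro z J g hg
    apply hadv z J g
    obtain ⟨L, h1, h2, h3⟩ := hg
    exact ⟨L, h1, h2.trans hS, h3⟩)
  -- counting the correct answers
  have hcount : (univ.filter (fun l : Λ0 ⊕ Λ0 =>
      (out.eval (Sum.elim Dp Dn l) (C.vals (Sum.elim Dp Dn l)) = true ↔
        (Sum.elim (fun _ => True) (fun _ => False) l : Prop)))).card =
      (univ.filter (fun l : Λ0 => out.eval (Dp l) (C.vals (Dp l)) = true)).card +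
      (univ.filter (fun l : Λ0 => ¬ out.eval (Dn l) (C.vals (Dn l)) = true)).card := by
    rw [← Finset.univ_disjSum_univ, Finset.card_filter, Finset.sum_disjSum, Finset.card_filter,
      Finset.card_filter]
    congr 1
    · apply Finset.sum_congr rfl
      intro l _
      simp only [Sum.elim_inl, iff_true]
    · apply Finset.sum_congr rfl
      intro l _
      simp only [Sum.elim_inr, iff_false]
  have hpos' : (((univ.filter (fun l : Λ0 => out.eval (Dp l) (C.vals (Dp l)) = true)).card : ℕ) : ℚ)
      = ∑ i : Fin m, ∑ y : Fin m → Ng, ((univ.filter (fun p : Pt =>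
        out.eval (E (Function.update (stt neg y i) i (pos p)))
          (C.vals (E (Function.update (stt neg y i) i (pos p)))) = true)).card : ℚ) := by
    rw [Finset.card_filter]
    push_cast
    rw [Fintype.sum_prod_type]
    apply Finset.sum_congr rfl
    intro i _
    rw [Fintype.sum_prod_type]
    apply Finset.sum_congr rfl
    intro y _
    rw [Finset.card_filter]
    push_cast
    rfl
  have hneg' : (((univ.filter (fun l : Λ0 => out.eval (Dn l) (C.vals (Dn l)) = true)).card : ℕ) : ℚ)
      = (∑ i : Fin m, ((univ.filter (fun y : Fin m → Ng =>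
        out.eval (E (stt neg y (i + 1))) (C.vals (E (stt neg y (i + 1)))) = true)).card : ℚ)) *
          Fintype.card Pt := by
    rw [Finset.card_filter]
    push_cast
    rw [Fintype.sum_prod_type, Finset.sum_mul]
    apply Finset.sum_congr rfl
    intro i _
    rw [Fintype.sum_prod_type, Finset.card_filter]
    push_cast
    rw [Finset.sum_mul]
    apply Finset.sum_congr rfl
    intro y _
    have : ∀ q : Pt, Dn (i, y, q) = E (stt neg y (i + 1)) := fun _ => rfl
    simp only [this]
    rw [Finset.sum_const, Finset.card_univ, nsmul_eq_mul, mul_comm]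
  have hsplit := Finset.card_filter_add_card_filter_not (s := (univ : Finset Λ0))
    (fun l : Λ0 => out.eval (Dn l) (C.vals (Dn l)) = true)
  rw [Finset.card_univ] at hsplit
  have hΛ0 : (Fintype.card Λ0 : ℚ) = m * (Fintype.card (Fin m → Ng) * Fintype.card Pt) := by
    rw [Fintype.card_prod, Fintype.card_prod, Fintype.card_fin]
    push_cast
    ring
  have hNp : (0 : ℚ) < Fintype.card (Fin m → Ng) * Fintype.card Pt := by
    have h1 : 0 < Fintype.card (Fin m → Ng) := Fintype.card_pos
    have h2 : 0 < Fintype.card Pt := Fintype.card_pos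
    exact_mod_cast Nat.mul_pos h1 h2
  have hKq : (c : ℚ) * K ≤ m := by exact_mod_cast hK
  have hmq : (0 : ℚ) < m := by exact_mod_cast hm
  have hc0 : (0 : ℚ) ≤ c := Nat.cast_nonneg _
  rw [hcount]
  have goal : (2 : ℚ) * c *
      (((univ.filter (fun l : Λ0 => out.eval (Dp l) (C.vals (Dp l)) = true)).card : ℕ) +
      ((univ.filter (fun l : Λ0 => ¬ out.eval (Dn l) (C.vals (Dn l)) = true)).card : ℕ) : ℚ) <
      (c + 2) * (2 * Fintype.card Λ0) := by
    have hs2 : (((univ.filter (fun l : Λ0 => ¬ out.eval (Dn l) (C.vals (Dn l)) = true)).card : ℕ) :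
        ℚ) = Fintype.card Λ0 -
        (((univ.filter (fun l : Λ0 => out.eval (Dn l) (C.vals (Dn l)) = true)).card : ℕ) : ℚ) := by
      have : (((univ.filter (fun l : Λ0 => out.eval (Dn l) (C.vals (Dn l)) = true)).card +
        (univ.filter (fun l : Λ0 => ¬ out.eval (Dn l) (C.vals (Dn l)) = true)).card : ℕ) : ℚ) =
        Fintype.card Λ0 := by exact_mod_cast hsplit
      push_cast at this
      linarith
    rw [hs2, hpos', hneg', hΛ0]
    set NP : ℚ := (Fintype.card (Fin m → Ng) : ℚ) * Fintype.card Pt with hNPdef
    have h3 : NP * (2 * c * ((K : ℚ) - 1) + m) < NP * (4 * m) := by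
      apply mul_lt_mul_of_pos_left _ hNp
      linarith
    linarith
  have hcardΛ : Fintype.card (Λ0 ⊕ Λ0) = 2 * Fintype.card Λ0 := by
    rw [Fintype.card_sum]; ring
  rw [hcardΛ]
  exact_mod_cast goal


end Pool.Agent.W2helper22.CW
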