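import Pool.Agent.W2helper22.AL.Up
import Pool.Agent.W2helper22.CU.AltDefs

/-! Dual rail simulation of a circuit on a set of inputs on which the negated inputs are given. -/

set_option autoImplicit false

namespace Pool.Agent.W2helper22.CW

open Finset Pool.Agent.W2helper22.AL

section

variable {N h s : ℕ} {c : ℕ → ℕ} {F : Set (((Fin N → Bool) → Bool) × ℕ)}

lemma node_eval_lt (a : H540R2.Node N) (x : Fin N → Bool) (v : ℕ → Bool) (k : ℕ)
    (ha : ∀ j, a.wires j ≠ 0 → j < k) :
    a.eval x (fun j => if _h : j < k then v j else false) = a.eval x v := by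
  cases a with
  | var i => rfl
  | const b => rfl
  | gate j =>
    have h1 : j < k := ha j (by simp [H540R2.Node.wires])
    show (if _h : j < k then v j else false) = v j
    rw [dif_pos h1]

/-- the functions of the nodes below `k` and their negations are in `F` -/
def Rails (X : Set (Fin N → Bool)) (C : H540R2.Circuit N) (h k : ℕ)
    (F : Set (((Fin N → Bool) → Bool) × ℕ)) : Prop :=
  ∀ a : H540R2.Node N, (∀ j, a.wires j ≠ 0 → j < k) → ∃ f g : (Fin N → Bool) → Bool,
    (f, h) ∈ F ∧ (g, h) ∈ F ∧ ∀ x ∈ X, f x = a.eval x (C.val x) ∧ g x = !(a.eval x (C.val x))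

lemma rails_succ {X : Set (Fin N → Bool)} {C : H540R2.Circuit N} {k : ℕ}
    {F F' : Set (((Fin N → Bool) → Bool) × ℕ)} (hR : Rails X C h k F) (hFF : F ⊆ F')
    (f g : (Fin N → Bool) → Bool) (hf : (f, h) ∈ F') (hg : (g, h) ∈ F')
    (hfg : ∀ x ∈ X, f x = C.val x k ∧ g x = !(C.val x k)) : Rails X C h (k + 1) F' := by
  intro a ha
  by_cases hak : ∀ j, a.wires j ≠ 0 → j < k
  · obtain ⟨f', g', h1, h2, h3⟩ := hR a hak
    exact ⟨f', g', hFF h1, hFF h2, h3⟩
  · push Not at hak
    obtain ⟨j, hj, hkj⟩ := hak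
    have h1 := ha j hj
    have h2 : j = k := by omega
    subst h2
    cases a with
    | var i => exact absurd rfl hj
    | const b => exact absurd rfl hj
    | gate i =>
      have h3 : i = j := by
        by_contra hne
        exact hj (by simp [H540R2.Node.wires, hne])
      subst h3
      exact ⟨f, g, hf, hg, hfg⟩

lemma rails_step {X : Set (Fin N → Bool)} {C : H540R2.Circuit N} {k : ℕ} (hk : k < C.size)
    (hR : Rails X C h k F) (hA : Av h s c F) :
    ∃ F', F ⊆ F' ∧ Av h (s + 2) c F' ∧ Rails X C h (k + 1) F' := by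
  have hlt := C.gate_lt k hk
  cases hC : C.gate k with
  | not a =>
    rw [hC] at hlt
    obtain ⟨f, g, h1, h2, h3⟩ := hR a hlt
    refine ⟨F, subset_rfl, hA.mono (by omega) (fun _ => le_rfl) (fun q hq => ⟨q.2, le_rfl, hq⟩),
      rails_succ hR subset_rfl g f h2 h1 (fun x hx => ?_)⟩
    have e : C.val x k = !(a.eval x (C.val x)) := by
      rw [H540R2.Circuit.val, hC]
      show (!(a.eval x _)) = _
      rw [node_eval_lt a x _ k hlt]
    obtain ⟨h4, h5⟩ := h3 x hx
    rw [e, h4, h5]
    simp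
  | and a b =>
    rw [hC] at hlt
    have hla : ∀ j, a.wires j ≠ 0 → j < k := fun j hj => hlt j (by
      simp only [H540R2.Gate.wires]; omega)
    have hlb : ∀ j, b.wires j ≠ 0 → j < k := fun j hj => hlt j (by
      simp only [H540R2.Gate.wires]; omega)
    obtain ⟨f, g, h1, h2, h3⟩ := hR a hla
    obtain ⟨f', g', h1', h2', h3'⟩ := hR b hlb
    refine ⟨_, fun q hq => Or.inr (Or.inr hq), (hA.and h1 h1' le_rfl).or (Or.inr h2) (Or.inr h2') le_rfl,
      rails_succ hR (fun q hq => Or.inr (Or.inr hq)) (fun x => f x && f' x) (fun x => g x || g' x)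
        (Or.inr (Or.inl rfl)) (Or.inl rfl) (fun x hx => ?_)⟩
    have e : C.val x k = (a.eval x (C.val x) && b.eval x (C.val x)) := by
      rw [H540R2.Circuit.val, hC]
      show (a.eval x _ && b.eval x _) = _
      rw [node_eval_lt a x _ k hla, node_eval_lt b x _ k hlb]
    obtain ⟨h4, h5⟩ := h3 x hx
    obtain ⟨h4', h5'⟩ := h3' x hx
    simp only [e, h4, h5, h4', h5', Bool.not_and, and_self]
  | or a b =>
    rw [hC] at hlt
    have hla : ∀ j, a.wires j ≠ 0 → j < k := fun j hj => hlt j (by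
      simp only [H540R2.Gate.wires]; omega)
    have hlb : ∀ j, b.wires j ≠ 0 → j < k := fun j hj => hlt j (by
      simp only [H540R2.Gate.wires]; omega)
    obtain ⟨f, g, h1, h2, h3⟩ := hR a hla
    obtain ⟨f', g', h1', h2', h3'⟩ := hR b hlb
    refine ⟨_, fun q hq => Or.inr (Or.inr hq), (hA.or h1 h1' le_rfl).and (Or.inr h2) (Or.inr h2') le_rfl,
      rails_succ hR (fun q hq => Or.inr (Or.inr hq)) (fun x => f x || f' x) (fun x => g x && g' x)
        (Or.inr (Or.inl rfl)) (Or.inl rfl) (fun x hx => ?_)⟩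
    have e : C.val x k = (a.eval x (C.val x) || b.eval x (C.val x)) := by
      rw [H540R2.Circuit.val, hC]
      show (a.eval x _ || b.eval x _) = _
      rw [node_eval_lt a x _ k hla, node_eval_lt b x _ k hlb]
    obtain ⟨h4, h5⟩ := h3 x hx
    obtain ⟨h4', h5'⟩ := h3' x hx
    simp only [e, h4, h5, h4', h5', Bool.not_or, and_self]

theorem dualW (X : Set (Fin N → Bool)) (nx : Fin N → (Fin N → Bool) → Bool)
    (hnx : ∀ p, ∀ x ∈ X, nx p x = !(x p)) (C : H540R2.Circuit N)
    (hF : ∀ p, ((fun x => x p), h) ∈ F) (hF' : ∀ p, (nx p, h) ∈ F) (hA : Av h s c F) :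
    ∃ f : (Fin N → Bool) → Bool, (∀ x ∈ X, f x = C.eval x) ∧
      Av h (s + 2 + 2 * C.size) c {(f, h)} := by
  have key : ∀ k ≤ C.size, ∃ F', Av h (s + 2 + 2 * k) c F' ∧ Rails X C h k F' := by
    intro k
    induction k with
    | zero =>
      intro _
      refine ⟨F ∪ {(fun _ => true, h), (fun _ => false, h)}, ?_, ?_⟩
      · refine ((hA.const true).const false).mono (by omega) (fun _ => le_rfl) (fun q hq => ?_)
        rcases hq with hq | hq | hq
        · exact ⟨q.2, le_rfl, Or.inr (Or.inr hq)⟩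
        · rw [hq]
          exact ⟨0, Nat.zero_le _, Or.inr (Or.inl rfl)⟩
        · rw [hq]
          exact ⟨0, Nat.zero_le _, Or.inl rfl⟩
      · intro a ha
        cases a with
        | var i => exact ⟨_, nx i, Or.inl (hF i), Or.inl (hF' i), fun x hx => ⟨rfl, hnx i x hx⟩⟩
        | const b =>
          cases b with
          | true => exact ⟨_, _, Or.inr (Or.inl rfl), Or.inr (Or.inr rfl), fun x hx => ⟨rfl, rfl⟩⟩
          | false => exact ⟨_, _, Or.inr (Or.inr rfl), Or.inr (Or.inl rfl), fun x hx => ⟨rfl, rfl⟩⟩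
        | gate j => exact absurd (ha j (by simp [H540R2.Node.wires])) (Nat.not_lt_zero _)
    | succ k ih =>
      intro hk
      obtain ⟨F', h1, h2⟩ := ih (Nat.le_of_succ_le hk)
      obtain ⟨F'', -, h4, h5⟩ := rails_step (Nat.lt_of_succ_le hk) h2 h1
      exact ⟨F'', h4, h5⟩
  obtain ⟨F', h1, h2⟩ := key C.size le_rfl
  obtain ⟨f, g, h3, -, h5⟩ := h2 C.out C.out_lt
  refine ⟨f, fun x hx => (h5 x hx).1, h1.mono le_rfl (fun _ => le_rfl) (fun q hq => ⟨q.2, le_rfl, ?_⟩)⟩
  rw [Set.mem_singleton_iff] at hq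
  rw [hq]
  exact h3

end

end Pool.Agent.W2helper22.CW
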