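import Pool.Agent.W2helper22.CW.WinUp
import Pool.Agent.W2helper26.CN.FIN

/-! Circuits which are right on a window, for all nesting structures. -/

set_option autoImplicit false

namespace Pool.Agent.W2helper22.CW

open Finset Pool.Agent Pool.Agent.H540R2
open Pool.Agent.W2helper22.CU (IsNot Alternates Nesting alternates_of_nesting)

open Classical in
/-- At most `h` NOT gates lie on each path (the gates have nesting levels at most `h`), and for
`l < h` at most `t l` NOT gates have the nesting level `l + 1`. -/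
def Nested {N : ℕ} (C : Circuit N) (h : ℕ) (t : ℕ → ℕ) : Prop :=
  ∃ lev : ℕ → ℕ, Nesting C h lev ∧
    ∀ l < h, ((range C.size).filter (fun g => IsNot C g ∧ lev g = l + 1)).card ≤ t l

lemma alternates_of_nested {N : ℕ} {C : Circuit N} {h : ℕ} {t : ℕ → ℕ} (hC : Nested C h t) :
    Alternates C (∏ l ∈ range h, (t l + 1) - 1) := by
  obtain ⟨lev, h1, h2⟩ := hC
  exact alternates_of_nesting C h lev t h1 (fun l hl => by
    refine le_trans (le_of_eq ?_) (h2 l hl)
    congr)

lemma nested_embed {N : ℕ} {C : Circuit N} {h' h : ℕ} {t' t : ℕ → ℕ} (σ : ℕ → ℕ)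
    (h1 : ∀ i < h', σ i < h) (h2 : ∀ i j, i < j → j < h' → σ i < σ j)
    (h3 : ∀ i < h', t' i ≤ t (σ i)) (hC : Nested C h' t') : Nested C h t := by
  classical
  obtain ⟨lev, ⟨hl1, hl2⟩, hl3⟩ := hC
  obtain ⟨lv, hlv⟩ : ∃ lv : ℕ → ℕ, lv = fun g => if lev g = 0 then 0 else σ (lev g - 1) + 1 :=
    ⟨_, rfl⟩
  have e0 : ∀ g, lev g = 0 → lv g = 0 := fun g hg => by rw [hlv]; simp [hg]
  have e1 : ∀ g, lev g ≠ 0 → lv g = σ (lev g - 1) + 1 := fun g hg => by rw [hlv]; simp [hg]
  have hmono : ∀ g < C.size, ∀ j, lev j ≤ lev g → lv j ≤ lv g := by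
    intro g hg j hj
    by_cases hj0 : lev j = 0
    · rw [e0 j hj0]; exact Nat.zero_le _
    · rw [e1 j hj0, e1 g (by omega)]
      have := (hl1 g hg).1
      rcases Nat.eq_or_lt_of_le hj with h4 | h4
      · rw [h4]
      · have := h2 (lev j - 1) (lev g - 1) (by omega) (by omega)
        omega
  have hstr : ∀ g < C.size, ∀ j, lev j < lev g → lv j < lv g := by
    intro g hg j hj
    rw [e1 g (by omega)]
    by_cases hj0 : lev j = 0
    · rw [e0 j hj0]; exact Nat.succ_pos _
    · rw [e1 j hj0]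
      have := (hl1 g hg).1
      have := h2 (lev j - 1) (lev g - 1) (by omega) (by omega)
      omega
  refine ⟨lv, ⟨fun g hg => ⟨?_, fun j hj => hmono g hg j ((hl1 g hg).2 j hj)⟩,
    fun g hg => ⟨?_, fun j hj => hstr g hg.1 j ((hl2 g hg).2 j hj)⟩⟩, fun l hl => ?_⟩
  · by_cases hg0 : lev g = 0
    · rw [e0 g hg0]; exact Nat.zero_le _
    · rw [e1 g hg0]
      have := (hl1 g hg).1
      exact h1 (lev g - 1) (by omega)
  · have := (hl2 g hg).1
    rw [e1 g (by omega)]
    exact Nat.succ_pos _
  · rcases Finset.eq_empty_or_nonempty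
      ((range C.size).filter (fun g => IsNot C g ∧ lv g = l + 1)) with h4 | ⟨g0, hg0⟩
    · rw [h4]; simp
    · obtain ⟨h5, h6, h7⟩ := Finset.mem_filter.1 hg0
      have h8 := (hl2 g0 h6).1
      have h9 := (hl1 g0 h6.1).1
      have h10 : σ (lev g0 - 1) = l := by rw [e1 g0 (by omega)] at h7; omega
      refine le_trans (Finset.card_le_card ?_) ((hl3 (lev g0 - 1) (by omega)).trans
        ((h3 (lev g0 - 1) (by omega)).trans (le_of_eq (by rw [h10]))))
      intro g hg
      obtain ⟨h11, h12, h13⟩ := Finset.mem_filter.1 hg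
      refine Finset.mem_filter.2 ⟨h11, h12, ?_⟩
      have h14 := (hl2 g h12).1
      have h15 := (hl1 g h12.1).1
      have h16 : σ (lev g - 1) = l := by rw [e1 g (by omega)] at h13; omega
      rcases lt_trichotomy (lev g) (lev g0) with h17 | h17 | h17
      · have := h2 (lev g - 1) (lev g0 - 1) (by omega) (by omega)
        omega
      · omega
      · have := h2 (lev g0 - 1) (lev g - 1) (by omega) (by omega)
        omega

/-- few levels are enough -/
lemma choose_levels (N : ℕ) (t : ℕ → ℕ) : ∀ h : ℕ, ∃ (h' : ℕ) (σ : ℕ → ℕ), h' ≤ N + 1 ∧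
    (∀ i < h', σ i < h) ∧ (∀ i j, i < j → j < h' → σ i < σ j) ∧
    (∀ i < h', 1 ≤ min (t (σ i)) N) ∧
    min (∏ l ∈ range h, (t l + 1)) (N + 1) ≤ ∏ i ∈ range h', (min (t (σ i)) N + 1) := by
  intro h
  induction h with
  | zero =>
    refine ⟨0, id, Nat.zero_le _, fun i hi => absurd hi (Nat.not_lt_zero _),
      fun i j _ hj => absurd hj (Nat.not_lt_zero _), fun i hi => absurd hi (Nat.not_lt_zero _), ?_⟩
    simp
  | succ h ih =>
    obtain ⟨h', σ, h1, h2, h3, h4, h5⟩ := ih
    rw [Finset.prod_range_succ]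
    by_cases hth : t h = 0
    · refine ⟨h', σ, h1, fun i hi => (h2 i hi).trans (Nat.lt_succ_self _), h3, h4, ?_⟩
      rw [hth]
      simpa using h5
    by_cases hbig : N + 1 ≤ ∏ i ∈ range h', (min (t (σ i)) N + 1)
    · exact ⟨h', σ, h1, fun i hi => (h2 i hi).trans (Nat.lt_succ_self _), h3, h4,
        (min_le_right _ _).trans hbig⟩
    push Not at hbig
    have hpow : 2 ^ h' ≤ ∏ i ∈ range h', (min (t (σ i)) N + 1) := by
      calc 2 ^ h' = ∏ i ∈ range h', 2 := by simp
        _ ≤ _ := Finset.prod_le_prod' fun i hi => by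
          have := h4 i (Finset.mem_range.1 hi)
          omega
    have hlt : h' < 2 ^ h' := Nat.lt_two_pow_self
    have hN : 1 ≤ N := by
      have : 1 ≤ 2 ^ h' := Nat.one_le_two_pow
      omega
    obtain ⟨P, hP⟩ : ∃ P, P = ∏ i ∈ range h', (min (t (σ i)) N + 1) := ⟨_, rfl⟩
    refine ⟨h' + 1, Function.update σ h' h, by omega, fun i hi => ?_, fun i j hij hj => ?_,
      fun i hi => ?_, ?_⟩
    · rcases Nat.lt_succ_iff_lt_or_eq.mp hi with h6 | h6
      · rw [Function.update_of_ne (by omega)]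
        exact (h2 i h6).trans (Nat.lt_succ_self _)
      · rw [h6, Function.update_self]
        exact Nat.lt_succ_self _
    · rw [Function.update_of_ne (show i ≠ h' by omega)]
      rcases Nat.lt_succ_iff_lt_or_eq.mp hj with h6 | h6
      · rw [Function.update_of_ne (by omega)]
        exact h3 i j hij h6
      · rw [h6, Function.update_self]
        exact h2 i (by omega)
    · rcases Nat.lt_succ_iff_lt_or_eq.mp hi with h6 | h6
      · rw [Function.update_of_ne (by omega)]
        exact h4 i h6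
      · rw [h6, Function.update_self]
        omega
    · rw [Finset.prod_range_succ, Function.update_self]
      have e : ∏ i ∈ range h', (min (t (Function.update σ h' h i)) N + 1) =
          ∏ i ∈ range h', (min (t (σ i)) N + 1) := Finset.prod_congr rfl fun i hi => by
        have := Finset.mem_range.1 hi
        rw [Function.update_of_ne (by omega)]
      rw [e, ← hP]
      rw [← hP] at h5 hbig
      have h7 : ∏ l ∈ range h, (t l + 1) ≤ P := by
        rcases min_le_iff.1 h5 with h8 | h8
        · exact h8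
        · omega
      have hP1 : 1 ≤ P := by
        rw [hP]
        exact Finset.one_le_prod' fun i _ => Nat.succ_le_succ (Nat.zero_le _)
      rcases Nat.lt_or_ge N (t h) with h8 | h8
      · refine (min_le_right _ _).trans ?_
        rw [min_eq_right h8.le]
        exact Nat.le_mul_of_pos_left _ hP1
      · refine (min_le_left _ _).trans ?_
        rw [min_eq_left h8]
        exact Nat.mul_le_mul_right _ h7

/-- **Upper bound on windows, for all nesting structures.** -/
theorem upperN {N : ℕ} (C : Circuit N) (h : ℕ) (t : ℕ → ℕ) (m W : ℕ)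
    (hWt : W ≤ ∏ l ∈ range h, (t l + 1)) :
    ∃ C' : Circuit N, Nested C' h t ∧ C'.size ≤ 2 * C.size + 16 * (N + 2) ^ 3 ∧
      ∀ x, m ≤ W953.NW.wt x → W953.NW.wt x < m + W → C'.eval x = C.eval x := by
  classical
  obtain ⟨h', σ, h1, h2, h3, h4, h5⟩ := choose_levels N t h
  have hP1 : 1 ≤ ∏ l ∈ range h, (t l + 1) :=
    Finset.one_le_prod' fun i _ => Nat.succ_le_succ (Nat.zero_le _)
  obtain ⟨C', lev, g1, g2, g3, g4⟩ := upperW C h' (fun i => min (t (σ i)) N) m
    (min (∏ l ∈ range h, (t l + 1)) (N + 1)) (by omega) h5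
  refine ⟨C', nested_embed (t' := fun i => min (t (σ i)) N) σ h2 h3 (fun i _ => min_le_left _ _)
    ⟨lev, g3, fun l hl => ?_⟩, ?_, fun x hx1 hx2 => g1 x hx1 ?_⟩
  · refine le_trans (le_of_eq ?_) (g4 l hl)
    congr
  · refine g2.trans ?_
    have e1 : ∑ i ∈ range h', min (t (σ i)) N ≤ (N + 1) * N := by
      calc ∑ i ∈ range h', min (t (σ i)) N ≤ ∑ i ∈ range h', N :=
            Finset.sum_le_sum fun i _ => min_le_right _ _
        _ = h' * N := by simp
        _ ≤ _ := Nat.mul_le_mul_right _ h1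
    have e2 : (N + 2 + ∑ i ∈ range h', min (t (σ i)) N) * (h' + 1) ≤ (N + 2) ^ 2 * (N + 2) :=
      Nat.mul_le_mul (by nlinarith) (by omega)
    have e3 : 8 * (N + 2 + ∑ i ∈ range h', min (t (σ i)) N) * (h' + 1) =
        8 * ((N + 2 + ∑ i ∈ range h', min (t (σ i)) N) * (h' + 1)) := by ring
    have e4 : (N + 2) ^ 3 = (N + 2) ^ 2 * (N + 2) := by ring
    rw [e3, e4]
    omega
  · have h6 : W953.NW.wt x ≤ N := by
      unfold W953.NW.wt
      exact (Finset.card_le_univ _).trans (by simp)
    omega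

end Pool.Agent.W2helper22.CW
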