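import Pool.Agent.W2helper22.CW.Blk
import Pool.Agent.W2helper22.CU.AltChain
import Pool.Agent.W2helper22.AL.AmGm
import Pool.Agent.W2helper26.CN.FIN

/-!
# The clique function on windows: the lower bound, with the number of alternations

The proofs are those of `Pool.Agent.W2helper26.CN.low` and `thr`.
-/

set_option autoImplicit false

namespace Pool.Agent.W2helper22.CW

open Finset Filter Pool.Agent Pool.Agent.W2helper86.KQ Pool.Agent.W953.KC Pool.Agent.W2helper26.CN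
open Pool.Agent.W2helper22.CU (IsNot Alternates Nesting alternates_of_nesting probes_congr)

/-- Windows which are longer than the number of alternations by a polylogarithmic factor are
impossible. -/
def P_LOWD : Prop := ∃ A : ℕ, ∀ (n k g D w W m : ℕ), 2 ≤ n → 1 ≤ w →
  (w * (Nat.log 2 n + 1)) ^ A ≤ k → k * n ≤ m → 25 * m ≤ n ^ 2 → W ≤ n ^ 2 →
  ∀ R : RandCircuit (n.choose 2), (∀ o, Alternates (R.C o) D ∧ (R.C o).size ≤ 2 ^ w) →
    (∀ x, m ≤ edges x → edges x < m + W → 1 / 2 + 1 / (w : ℝ) ≤ R.prob (Right (k + g) k x)) →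
    W ≤ (D + 1) * ((g + 1) * w * (Nat.log 2 n + 1)) ^ A

/-- the probes change rarely -/
lemma changesD {N : ℕ} {ι : Type} (ν : Fin N → ι ⊕ Bool) (C : H540R2.Circuit N) {D : ℕ}
    (hD : Alternates C D) (P : ℕ) (x : ℕ → ι → Bool) (hx : ∀ i < P, x i ≤ x (i + 1)) :
    ((Finset.range P).filter (fun i => (build ν C C.size).probes (x i) ≠
      (build ν C C.size).probes (x (i + 1)))).card + 1 ≤ D + 1 := by
  refine Nat.succ_le_succ (hD (fun i => sx ν (x (min i P))) ?_ _ ?_)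
  · intro i p hp
    have hp' : sx ν (x (min i P)) p = true := hp
    show sx ν (x (min (i + 1) P)) p = true
    rcases Nat.lt_or_ge i P with h | h
    · have e1 : min i P = i := by omega
      have e2 : min (i + 1) P = i + 1 := by omega
      rw [e1] at hp'
      rw [e2]
      unfold sx sv at hp' ⊢
      cases h2 : ν p with
      | inl a =>
        rw [h2] at hp'
        have h3 := hx i h a
        have h4 : x i a = true := hp'
        rw [h4] at h3
        exact Bool.eq_true_of_true_le h3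
      | inr b => rw [h2] at hp'; exact hp'
    · have e1 : min i P = P := by omega
      have e2 : min (i + 1) P = P := by omega
      rw [e1] at hp'
      rw [e2]
      exact hp'
  · intro i hi
    obtain ⟨hi1, hi2⟩ := Finset.mem_filter.1 hi
    have hiP := Finset.mem_range.1 hi1
    have e1 : min i P = i := by omega
    have e2 : min (i + 1) P = i + 1 := by omega
    simp only [e1, e2]
    by_contra hcon
    push Not at hcon
    exact hi2 (probes_congr ν C _ _ C.size le_rfl hcon)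

/-- arithmetic of the choice of `r` -/
lemma arithD {n T w s q W Z : ℕ} (ht : 1 ≤ T) (hw : 1 ≤ w) (hs : 2 ≤ s) (hq : 1 ≤ q) (hZ : 256 * w * s ^ 4 * q ^ 2 ≤ Z)
    (hW : T * Z < W) (hWn : W ≤ n ^ 2) : ∃ r p : ℕ, p.Prime ∧ 4 * r ≤ n ∧ r ^ 2 < W ∧
      s * p * q ≤ r ∧ s ≤ p ∧ w * T * s ^ 2 < p ^ 2 := by
  obtain ⟨y, hy⟩ : ∃ y, y = Nat.sqrt W := ⟨_, rfl⟩
  have h1 : y * y ≤ W := by rw [hy]; exact Nat.sqrt_le W
  have h2 : W < (y + 1) * (y + 1) := by rw [hy]; exact Nat.lt_succ_sqrt W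
  have hyn : y ≤ n := by
    by_contra hcon
    push Not at hcon
    have := Nat.mul_lt_mul'' hcon hcon
    nlinarith
  have hZ1 : 256 ≤ Z := by
    have h3 : 1 ≤ w * s ^ 4 * q ^ 2 := by
      have : 0 < w * s ^ 4 * q ^ 2 := by positivity
      omega
    nlinarith
  have hW1 : 256 ≤ W := by nlinarith
  have hy16 : 16 ≤ y := by
    by_contra hcon
    push Not at hcon
    have : (y + 1) * (y + 1) ≤ 16 * 16 := Nat.mul_le_mul (by omega) (by omega)
    omega
  obtain ⟨r, hr⟩ : ∃ r, r = y / 4 := ⟨_, rfl⟩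
  have hr1 : 4 * r ≤ y := by omega
  have hr2 : y + 1 ≤ 4 * r + 4 := by omega
  have hr4 : 4 ≤ r := by omega
  have hW64 : W < 64 * r ^ 2 := by
    have h3 : (y + 1) * (y + 1) ≤ (4 * r + 4) * (4 * r + 4) := Nat.mul_le_mul hr2 hr2
    nlinarith
  have hrr : 4 * T * w * s ^ 4 * q ^ 2 < r ^ 2 := by
    have h3 : T * (256 * w * s ^ 4 * q ^ 2) ≤ T * Z := Nat.mul_le_mul_left _ hZ
    have h4 : T * (256 * w * s ^ 4 * q ^ 2) = 64 * (4 * T * w * s ^ 4 * q ^ 2) := by ring
    omega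
  have hrs : 2 * s ^ 2 * q < r := by
    by_contra hcon
    push Not at hcon
    have h3 : r ^ 2 ≤ (2 * s ^ 2 * q) ^ 2 := Nat.pow_le_pow_left hcon 2
    have h4 : (2 * s ^ 2 * q) ^ 2 = 4 * s ^ 4 * q ^ 2 := by ring
    have h5 : 4 * s ^ 4 * q ^ 2 ≤ 4 * T * w * s ^ 4 * q ^ 2 := by
      have h6 : 1 ≤ T * w := Nat.mul_pos ht hw
      calc 4 * s ^ 4 * q ^ 2 = 4 * 1 * s ^ 4 * q ^ 2 := by ring
        _ ≤ 4 * (T * w) * s ^ 4 * q ^ 2 := by gcongr
        _ = _ := by ring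
    omega
  have hsq : 0 < 2 * s * q := by positivity
  have hN : 2 * s * q ≤ r := by
    have h3 : 2 * s * q * 1 ≤ 2 * s * q * s := Nat.mul_le_mul_left _ (by omega)
    have h4 : 2 * s * q * s = 2 * s ^ 2 * q := by ring
    omega
  obtain ⟨N, hNd⟩ : ∃ N, N = r / (2 * s * q) := ⟨_, rfl⟩
  have hN0 : N ≠ 0 := by
    rw [hNd]
    exact (Nat.div_pos hN hsq).ne'
  obtain ⟨p, hp, hp1, hp2⟩ := Nat.exists_prime_lt_and_le_two_mul N hN0
  have hNr : N * (2 * s * q) ≤ r := by rw [hNd]; exact Nat.div_mul_le_self _ _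
  have hpr : r < p * (2 * s * q) := by
    have h3 : r < (N + 1) * (2 * s * q) := by
      rw [hNd]
      exact Nat.lt_mul_of_div_lt (Nat.lt_succ_self _) hsq
    exact lt_of_lt_of_le h3 (Nat.mul_le_mul_right _ hp1)
  refine ⟨r, p, hp, by omega, ?_, ?_, ?_, ?_⟩
  · have e1 : (4 * r) * (4 * r) ≤ y * y := Nat.mul_le_mul hr1 hr1
    have e2 : (4 * r) * (4 * r) = 16 * r ^ 2 := by ring
    have e3 : 0 < r ^ 2 := by positivity
    omega
  · calc s * p * q ≤ s * (2 * N) * q := by gcongr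
      _ = N * (2 * s * q) := by ring
      _ ≤ r := hNr
  · by_contra hcon
    push Not at hcon
    have h3 : p * (2 * s * q) ≤ s * (2 * s * q) := Nat.mul_le_mul_right _ hcon.le
    have h4 : s * (2 * s * q) = 2 * s ^ 2 * q := by ring
    omega
  · by_contra hcon
    push Not at hcon
    have h3 : r ^ 2 < (p * (2 * s * q)) ^ 2 := Nat.pow_lt_pow_left hpr (by norm_num)
    have h4 : (p * (2 * s * q)) ^ 2 = p ^ 2 * (4 * s ^ 2 * q ^ 2) := by ring
    have h5 : p ^ 2 * (4 * s ^ 2 * q ^ 2) ≤ (w * T * s ^ 2) * (4 * s ^ 2 * q ^ 2) :=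
      Nat.mul_le_mul_right _ hcon
    have h6 : (w * T * s ^ 2) * (4 * s ^ 2 * q ^ 2) = 4 * T * w * s ^ 4 * q ^ 2 := by ring
    omega

theorem lowD (hDES : P_DES) (hSUB : P_SUB) (hPAD : P_PAD) (hNUM : P_NUM) : P_LOWD := by
  classical
  obtain ⟨A, hA⟩ := hNUM
  refine ⟨A, ?_⟩
  intro n k g d w W m hn hw hk hkm hm hWn R hR hx
  by_contra hcon
  push Not at hcon
  obtain ⟨ℓ, hℓ⟩ : ∃ ℓ, ℓ = Nat.log 2 n + 1 := ⟨_, rfl⟩
  rw [← hℓ] at hk hcon
  have hℓ2 : 2 ≤ ℓ := by
    have : 0 < Nat.log 2 n := Nat.log_pos (by norm_num) hn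
    omega
  obtain ⟨κ, b, hκ, hb, hκL, hκk, hq, hS, hZ⟩ := hA g w ℓ hw hℓ2
  obtain ⟨s, hs⟩ : ∃ s, s = κ + 1 + g := ⟨_, rfl⟩
  rw [← hs] at hZ
  have hq1 : 1 ≤ 2 ^ b := Nat.one_le_two_pow
  obtain ⟨r, p, hp, hrn, hrW, hspq, hsp, hPw⟩ := arithD (n := n) (T := d + 1) (Nat.succ_le_succ (Nat.zero_le d)) hw (by omega : 2 ≤ s) hq1 hZ hcon hWn
  have hp1 : 1 ≤ p := hp.one_le
  have hsp2 : s * p ≤ 2 ^ ℓ := by
    have h1 : s * p ≤ s * p * 2 ^ b := Nat.le_mul_of_pos_right _ (by positivity)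
    have h2 : n < 2 ^ ℓ := by rw [hℓ]; exact Nat.lt_pow_succ_log_self (by norm_num) n
    omega
  obtain ⟨P, hP, ⟨D⟩⟩ := hDES r s p (2 ^ b) κ ℓ hp (by omega) hsp hspq hq1 hsp2 hκL
  have hPw' : w * (d + 1) < P := by
    have h1 : s ^ 2 * (w * (d + 1)) < s ^ 2 * P := by
      calc s ^ 2 * (w * (d + 1)) = w * (d + 1) * s ^ 2 := by ring
        _ < p ^ 2 := hPw
        _ ≤ s ^ 2 * P := hP
    exact Nat.lt_of_mul_lt_mul_left h1
  obtain ⟨Λ, hΛ1, hΛ2, z, -, hz⟩ := des_gap_blockD (κ := κ) (s := s) (b := b) (c := w)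
    (S := 2 ^ w) (P := P) (n := r) hκ (by omega) hb hw (by omega) D hq hS
  have hkk : κ + 1 ≤ k := hκk.trans hk
  obtain ⟨u, hu⟩ : ∃ u, u = k - (κ + 1) := ⟨_, rfl⟩
  have hn0 : 0 < n := by omega
  have h25 : 25 * k ≤ n := by
    have h1 : 25 * k * n ≤ n * n := by nlinarith
    exact Nat.le_of_mul_le_mul_right h1 hn0
  have hk1 : 3 ≤ k := by omega
  have hpad1 : r + u + 2 * (n / 4) ≤ n := by omega
  have hpad2 : u * (r + u) ≤ m := by
    refine le_trans ?_ hkm
    exact Nat.mul_le_mul (by omega) (by omega)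
  have hpad3 : m ≤ (n / 4) ^ 2 := by
    have h1 : n ≤ 5 * (n / 4) := by omega
    have h2 : n ^ 2 ≤ 25 * (n / 4) ^ 2 := by
      calc n ^ 2 ≤ (5 * (n / 4)) ^ 2 := Nat.pow_le_pow_left h1 2
        _ = 25 * (n / 4) ^ 2 := by ring
    omega
  obtain ⟨T, hTc, hT⟩ := hPAD n r u (n / 4) m hpad1 hpad2 hpad3
  have hsub := hSUB n r u (n / 4) (pairNo n) T (by omega) hT
  letI := R.fin
  have hw0 : (0 : ℝ) < w := by exact_mod_cast hw
  have hΛ0 : (0 : ℝ) < Fintype.card Λ := by exact_mod_cast Fintype.card_pos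
  obtain ⟨l, hl⟩ := H559R8.rand_of_dist' (1 / 2 + 1 / (w : ℝ))
    (fun o l => H559R10.RightGap s (κ + 1) (z l)
      ((outOf (psub (pairNo n) T r) (R.C o)).eval (z l)
        ((build (psub (pairNo n) T r) (R.C o) (R.C o).size).vals (z l)))) R.w R.nonneg R.sum_one
    (fun o => by
      have h1 := hz _ (build (psub (pairNo n) T r) (R.C o) (R.C o).size)
        (outOf (psub (pairNo n) T r) (R.C o)) (d + 1) (by
          rw [build_size]
          exact (hR o).2) (changesD _ (R.C o) (hR o).1 P) hPw'.le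
      have h2 : 2 * (w : ℝ) * ((univ.filter (fun l => H559R10.RightGap s (κ + 1) (z l)
          ((outOf (psub (pairNo n) T r) (R.C o)).eval (z l)
          ((build (psub (pairNo n) T r) (R.C o) (R.C o).size).vals (z l))))).card : ℝ) <
          ((w : ℝ) + 2) * Fintype.card Λ := by exact_mod_cast h1
      calc ((univ.filter (fun l => H559R10.RightGap s (κ + 1) (z l)
          ((outOf (psub (pairNo n) T r) (R.C o)).eval (z l)
          ((build (psub (pairNo n) T r) (R.C o) (R.C o).size).vals (z l))))).card : ℝ)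
          < (((w : ℝ) + 2) * Fintype.card Λ) / (2 * w) := by
            rw [lt_div_iff₀ (by positivity), mul_comm]
            exact h2
        _ = (1 / 2 + 1 / (w : ℝ)) * Fintype.card Λ := by field_simp)
  obtain ⟨⟨h1, h2⟩, h3⟩ := hsub (z l)
  rw [hTc] at h1 h2
  have hx' := hx (sx (psub (pairNo n) T r) (z l)) h1 (lt_of_le_of_lt h2 (by omega))
  refine absurd hx' (not_le.2 (lt_of_le_of_lt (le_of_eq ?_) hl))
  unfold RandCircuit.prob
  apply Finset.sum_congr ?_ (fun _ _ => rfl)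
  apply Finset.filter_congr
  intro o _
  have e1 : k + g = s + u := by omega
  have e2 : k = κ + 1 + u := by omega
  unfold Right H559R10.RightGap
  rw [outOf_eval, graph_eq, e1, h3 s (by omega)]
  conv_lhs => rw [e2]
  rw [h3 (κ + 1) (by omega)]

/-- There are randomised circuits of polynomial size with at most `D n` alternations which tell the
graphs with a clique of `k n` vertices from the others, with error probability at most `1 / 3`. -/
def PolyAlt (k D : ℕ → ℕ) : Prop :=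
  ∃ a : ℕ, ∀ n : ℕ, 2 ≤ n → ∃ R : RandCircuit (n.choose 2),
    (∀ o, Alternates (R.C o) (D n) ∧ (R.C o).size ≤ n ^ a) ∧
      ∀ x, 2 / 3 ≤ R.prob (Right (k n) (k n) x)

/-- Circuits of polynomial size for all graphs need `n ^ 2 / polylog n` alternations. -/
def P_THRD : Prop := ∀ k D : ℕ → ℕ, (∀ B : ℕ, ∀ᶠ n : ℕ in atTop, (Nat.log 2 n) ^ B ≤ k n) →
  (∀ᶠ n : ℕ in atTop, 25 * k n ≤ n) → PolyAlt k D →
  ∃ B : ℕ, ∀ᶠ n : ℕ in atTop, n ^ 2 ≤ (D n + 1) * (Nat.log 2 n) ^ B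

theorem thrD (hLOW : P_LOWD) : P_THRD := by
  obtain ⟨A, hA⟩ := hLOW
  intro k D hk1 hk2 ⟨a, ha⟩
  refine ⟨(2 * (a + 3)) * A, ?_⟩
  have hlog : Tendsto (fun n : ℕ => Nat.log 2 n) atTop atTop := by
    rw [tendsto_atTop]
    intro b
    filter_upwards [eventually_ge_atTop (2 ^ b)] with n hn
    exact Nat.le_log_of_pow_le (by norm_num) hn
  filter_upwards [hk1 (2 * (a + 3) * A), hk2, eventually_ge_atTop 2,
    hlog.eventually (eventually_ge_atTop 7)] with n h1 h2 hn hl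
  obtain ⟨L, hL⟩ : ∃ L, L = Nat.log 2 n := ⟨_, rfl⟩
  rw [← hL] at h1 hl ⊢
  obtain ⟨w, hw⟩ : ∃ w, w = a * (L + 1) + 6 := ⟨_, rfl⟩
  have hwL : w * (L + 1) ≤ L ^ (2 * (a + 3)) := by
    have e1 : L + 1 ≤ L ^ 2 := by nlinarith
    have e2 : a + 6 ≤ L ^ (a + 1) := by
      clear hw h1 ha
      induction a with
      | zero => simpa using (by omega : 6 ≤ L)
      | succ a ih =>
        calc a + 1 + 6 ≤ (a + 6) * 2 := by omega
          _ ≤ L ^ (a + 1) * L := Nat.mul_le_mul ih (by omega)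
          _ = _ := by ring
    have e3 : w ≤ (a + 6) * (L + 1) := by rw [hw]; nlinarith
    calc w * (L + 1) ≤ ((a + 6) * (L + 1)) * (L + 1) := Nat.mul_le_mul_right _ e3
      _ ≤ (L ^ (a + 1) * L ^ 2) * L ^ 2 := by gcongr
      _ = L ^ (a + 5) := by ring
      _ ≤ L ^ (2 * (a + 3)) := Nat.pow_le_pow_right (by omega) (by omega)
  have hwA : (w * (L + 1)) ^ A ≤ L ^ (2 * (a + 3) * A) := by
    rw [pow_mul]
    exact Nat.pow_le_pow_left hwL A
  obtain ⟨R, hR1, hR2⟩ := ha n hn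
  have hn2 : n < 2 ^ (L + 1) := by rw [hL]; exact Nat.lt_pow_succ_log_self (by norm_num) n
  have key := hA n (k n) 0 (D n) w (n ^ 2) (k n * n) hn (by omega) (by rw [← hL]; exact hwA.trans h1)
    le_rfl (by nlinarith) le_rfl R (fun o => ⟨(hR1 o).1, (hR1 o).2.trans (by
      calc n ^ a ≤ (2 ^ (L + 1)) ^ a := Nat.pow_le_pow_left hn2.le a
        _ = 2 ^ (a * (L + 1)) := by rw [← pow_mul, mul_comm]
        _ ≤ 2 ^ w := Nat.pow_le_pow_right (by norm_num) (by omega))⟩)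
    (fun x _ _ => by
      have h3 := hR2 x
      have h4 : (1 : ℝ) / w ≤ 1 / 6 := by
        apply one_div_le_one_div_of_le (by norm_num)
        have : 6 ≤ w := by omega
        exact_mod_cast this
      rw [add_zero]
      refine le_trans ?_ h3
      linarith)
  rw [← hL] at key
  refine key.trans (Nat.mul_le_mul_left _ ?_)
  rw [show (0 + 1) * w * (L + 1) = w * (L + 1) by ring]
  exact hwA


theorem final_lowD : P_LOWD :=
  lowD W2helper11.CN.p_des W2helper59.CN.p_sub W2helper59.CN.p_pad W2helper11.CN.p_num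

theorem final_thrD : P_THRD := thrD final_lowD

end Pool.Agent.W2helper22.CW
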