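import Pool.Agent.W2helper22.CW.Emb
import Pool.Agent.W2helper22.CW.Low

/-! Short windows are as good as everything, for all nesting structures. -/

set_option autoImplicit false

namespace Pool.Agent.W2helper22.CW

open Finset Filter Pool.Agent Pool.Agent.H540R2 Pool.Agent.W2helper86.KQ Pool.Agent.W2helper26.CN
open Pool.Agent.W2helper22.CU (IsNot Alternates Nesting alternates_of_nesting alternates_pow)

/-- For each `m` there are randomised circuits of polynomial size in which at most `h n` NOT gates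
lie on each path, with at most `t n l` NOT gates of nesting level `l + 1`, and which tell, among the
graphs with at least `m` and less than `m + W n` edges, those with a clique of `s n` vertices from
those with no clique of `k n` vertices, with error probability at most `1 / 3`. -/
def PolyNested (k s W h : ℕ → ℕ) (t : ℕ → ℕ → ℕ) : Prop :=
  ∃ a : ℕ, ∀ n : ℕ, 2 ≤ n → ∀ m : ℕ, ∃ R : RandCircuit (n.choose 2),
    (∀ o, Nested (R.C o) (h n) (t n) ∧ (R.C o).size ≤ n ^ a) ∧
      ∀ x, m ≤ edges x → edges x < m + W n → 2 / 3 ≤ R.prob (Right (s n) (k n) x)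

theorem eqL (k s W h : ℕ → ℕ) (t : ℕ → ℕ → ℕ)
    (hW : ∀ n, 1 ≤ W n ∧ W n ≤ ∏ l ∈ range (h n), (t n l + 1)) :
    PolyNested k s W h t ↔ PolyAll k s := by
  constructor
  · rintro ⟨a, ha⟩
    refine (final_eq k s (fun n => n ^ a) (fun _ => 1) (fun n => ⟨le_rfl, Nat.one_le_two_pow⟩)).1
      ⟨a, fun n hn m => ?_⟩
    obtain ⟨R, h1, h2⟩ := ha n hn m
    refine ⟨R, fun o => ⟨le_trans ?_ (h1 o).2, (h1 o).2⟩, fun x hx1 hx2 => h2 x hx1 ?_⟩
    · unfold Circuit.nots
      exact (Finset.card_filter_le _ _).trans (by simp)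
    · have h3 := (hW n).1
      have h4 : edges x < m + 1 := hx2
      omega
  · rintro ⟨a, ha⟩
    refine ⟨a + 14, fun n hn m => ?_⟩
    obtain ⟨R, h1, h2⟩ := ha n hn
    have key : ∀ o, ∃ C' : Circuit (n.choose 2), Nested C' (h n) (t n) ∧
        C'.size ≤ 2 * (R.C o).size + 16 * (n.choose 2 + 2) ^ 3 ∧
        ∀ x, m ≤ W953.NW.wt x → W953.NW.wt x < m + W n → C'.eval x = (R.C o).eval x :=
      fun o => upperN (R.C o) (h n) (t n) m (W n) (hW n).2
    choose C' g1 g2 g3 using key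
    refine ⟨⟨R.Ω, R.fin, R.w, R.nonneg, R.sum_one, C'⟩, fun o => ⟨g1 o, ?_⟩, fun x hx1 hx2 => ?_⟩
    · refine (g2 o).trans ?_
      have e1 : n.choose 2 + 2 ≤ n ^ 2 + 2 := by
        have : n.choose 2 ≤ n ^ 2 := Nat.choose_le_pow n 2
        omega
      have e2 : n ^ 2 + 2 ≤ n ^ 3 := by nlinarith [Nat.pow_le_pow_left hn 2]
      have e3 : (n.choose 2 + 2) ^ 3 ≤ n ^ 9 := by
        calc (n.choose 2 + 2) ^ 3 ≤ (n ^ 3) ^ 3 := Nat.pow_le_pow_left (e1.trans e2) 3
          _ = n ^ 9 := by ring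
      have e4 : 16 ≤ n ^ 4 := by
        calc 16 = 2 ^ 4 := by norm_num
          _ ≤ n ^ 4 := Nat.pow_le_pow_left hn 4
      calc 2 * (R.C o).size + 16 * (n.choose 2 + 2) ^ 3 ≤ n * n ^ a + n ^ 4 * n ^ 9 :=
            Nat.add_le_add (Nat.mul_le_mul hn (h1 o)) (Nat.mul_le_mul e4 e3)
        _ = n ^ (a + 1) + n ^ 13 := by ring
        _ ≤ n ^ (a + 13) + n ^ (a + 13) := Nat.add_le_add
            (Nat.pow_le_pow_right (by omega) (by omega)) (Nat.pow_le_pow_right (by omega) (by omega))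
        _ = 2 * n ^ (a + 13) := by ring
        _ ≤ n * n ^ (a + 13) := Nat.mul_le_mul_right _ hn
        _ = n ^ (a + 14) := by ring
    · refine (h2 x).trans (le_of_eq ?_)
      unfold RandCircuit.prob
      refine Finset.sum_congr ?_ fun _ _ => rfl
      ext o
      simp only [Finset.mem_filter, Finset.mem_univ, true_and]
      unfold Right
      rw [g3 o x hx1 hx2]

/-- Circuits for all graphs need `n ^ 2 / polylog` alternations, in particular for nested NOT gates. -/
theorem thrN (k h : ℕ → ℕ) (t : ℕ → ℕ → ℕ) (hk1 : ∀ B : ℕ, ∀ᶠ n : ℕ in atTop, (Nat.log 2 n) ^ B ≤ k n)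
    (hk2 : ∀ᶠ n : ℕ in atTop, 25 * k n ≤ n) (hP : PolyNested k k (fun n => n.choose 2 + 1) h t) :
    ∃ B : ℕ, ∀ᶠ n : ℕ in atTop, n ^ 2 ≤ (∏ l ∈ range (h n), (t n l + 1)) * (Nat.log 2 n) ^ B := by
  obtain ⟨a, ha⟩ := hP
  obtain ⟨B, hB⟩ := final_thrD k (fun n => ∏ l ∈ range (h n), (t n l + 1) - 1) hk1 hk2
    ⟨a, fun n hn => by
      obtain ⟨R, h1, h2⟩ := ha n hn 0
      refine ⟨R, fun o => ⟨alternates_of_nested (h1 o).1, (h1 o).2⟩, fun x => h2 x (Nat.zero_le _) ?_⟩
      have : edges x ≤ n.choose 2 := by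
        unfold edges
        exact (Finset.card_le_univ _).trans (by simp)
      show edges x < 0 + (n.choose 2 + 1)
      omega⟩
  refine ⟨B, ?_⟩
  filter_upwards [hB] with n hn
  have h1 : 1 ≤ ∏ l ∈ range (h n), (t n l + 1) :=
    Finset.one_le_prod' fun i _ => Nat.succ_le_succ (Nat.zero_le _)
  have e : ∏ l ∈ range (h n), (t n l + 1) - 1 + 1 = ∏ l ∈ range (h n), (t n l + 1) := by omega
  simp only [e] at hn
  exact hn

end Pool.Agent.W2helper22.CW
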