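import Pool.Agent.W2helper22.CW.EqL

/-! The number of NOT gates and the nesting levels. -/

set_option autoImplicit false

namespace Pool.Agent.W2helper22.CW

open Finset Pool.Agent Pool.Agent.H540R2
open Pool.Agent.W2helper22.CU (IsNot Alternates Nesting alternates_of_nesting alternates_pow nots_eq)

variable {N : ℕ}

open Classical in
lemma nots_eq_sum (C : Circuit N) (h : ℕ) (lev : ℕ → ℕ) (hl : Nesting C h lev) :
    C.nots = ∑ l ∈ range h, ((range C.size).filter (fun g => IsNot C g ∧ lev g = l + 1)).card := by
  rw [nots_eq]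
  have e1 := Finset.card_eq_sum_card_fiberwise (f := fun i => lev i - 1)
    (s := (range C.size).filter (fun i => IsNot C i)) (t := range h) (by
      intro i hi
      have h0 := (Finset.mem_filter.mp (Finset.mem_coe.mp hi)).2
      have h1 := (hl.2 i h0).1
      have h2 := (hl.1 i h0.1).1
      rw [Finset.mem_coe, Finset.mem_range]
      show lev i - 1 < h
      omega)
  rw [e1]
  refine Finset.sum_congr rfl fun l _ => congrArg _ ?_
  ext i
  simp only [Finset.mem_filter]
  constructor
  · rintro ⟨⟨h1, h2⟩, h3⟩
    have := (hl.2 i h2).1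
    exact ⟨h1, h2, by omega⟩
  · rintro ⟨h1, h2, h3⟩
    exact ⟨⟨h1, h2⟩, by omega⟩

/-- A circuit has at most `t` NOT gates if and only if it has `t` nesting levels with one NOT gate
each. -/
theorem nots_iff (C : Circuit N) (t : ℕ) : C.nots ≤ t ↔ Nested C t (fun _ => 1) := by
  classical
  constructor
  · intro ht
    set lev : ℕ → ℕ := fun i => ((range C.size).filter (fun j => IsNot C j ∧ j ≤ i)).card with hlev
    have hmono : ∀ a i : ℕ, a ≤ i → lev a ≤ lev i := by
      intro a i hai
      apply Finset.card_le_card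
      intro j hj
      obtain ⟨h0, h1, h2⟩ := Finset.mem_filter.mp hj
      exact Finset.mem_filter.mpr ⟨h0, h1, h2.trans hai⟩
    have hlt : ∀ a i : ℕ, a < i → IsNot C i → lev a < lev i := by
      intro a i hai hi
      apply Finset.card_lt_card
      rw [Finset.ssubset_iff_of_subset]
      · exact ⟨i, Finset.mem_filter.mpr ⟨mem_range.2 hi.1, hi, le_rfl⟩, fun h =>
          absurd (Finset.mem_filter.mp h).2.2 hai.not_ge⟩
      · intro j hj
        obtain ⟨h0, h1, h2⟩ := Finset.mem_filter.mp hj
        exact Finset.mem_filter.mpr ⟨h0, h1, h2.trans hai.le⟩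
    have hl : Nesting C t lev := by
      refine ⟨fun g hg => ⟨?_, fun j hj => hmono j g (C.gate_lt g hg j hj).le⟩,
        fun g hg => ⟨?_, fun j hj => hlt j g (C.gate_lt g hg.1 j hj) hg⟩⟩
      · refine le_trans ?_ ht
        rw [nots_eq]
        apply Finset.card_le_card
        intro j hj
        obtain ⟨h0, h1, _⟩ := Finset.mem_filter.mp hj
        exact Finset.mem_filter.mpr ⟨h0, h1⟩
      · exact Finset.card_pos.2 ⟨g, Finset.mem_filter.mpr ⟨mem_range.2 hg.1, hg, le_rfl⟩⟩
    refine ⟨lev, hl, fun l _ => ?_⟩
    have key : ((range C.size).filter (fun g => IsNot C g ∧ lev g = l + 1)).card ≤ 1 := by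
      rw [Finset.card_le_one]
      intro i hi j hj
      obtain ⟨_, h1, h2⟩ := Finset.mem_filter.mp hi
      obtain ⟨_, h3, h4⟩ := Finset.mem_filter.mp hj
      rcases lt_trichotomy i j with h | h | h
      · have := hlt i j h h3
        omega
      · exact h
      · have := hlt j i h h1
        omega
    refine le_trans (le_of_eq ?_) key
    congr
  · rintro ⟨lev, h1, h2⟩
    rw [nots_eq_sum C t lev h1]
    calc _ ≤ ∑ l ∈ range t, 1 := Finset.sum_le_sum fun l hl => by
          refine le_trans (le_of_eq ?_) (h2 l (Finset.mem_range.1 hl))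
          congr
      _ = t := by simp

/-- Nesting levels and the number of NOT gates. -/
theorem alternates_total (C : Circuit N) {h : ℕ} (hh : 1 ≤ h) (lev : ℕ → ℕ) (hl : Nesting C h lev) :
    Alternates C (⌊(1 + (C.nots : ℝ) / h) ^ h⌋₊ - 1) := by
  classical
  have h1 := alternates_of_nesting C h lev
    (fun l => ((range C.size).filter (fun g => IsNot C g ∧ lev g = l + 1)).card) hl
    (fun l _ => le_of_eq (by congr))
  have h2 := nots_eq_sum C h lev hl
  have h3 := AL.amgm_nat h hh
    (fun l => ((range C.size).filter (fun g => IsNot C g ∧ lev g = l + 1)).card) C.nots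
    (le_of_eq (by
      rw [h2]))
  have h4 := Nat.le_floor h3
  intro x hx J hJ
  have h5 := h1 x hx J hJ
  omega

end Pool.Agent.W2helper22.CW
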