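import Pool.Agent.W2helper22.AL.Upper
import Pool.Agent.W2helper22.CW.Dual
import Pool.Agent.W2helper22.CW.Conv

/-! Circuits which are right on a window, with few NOT gates in few nesting levels. -/

set_option autoImplicit false

namespace Pool.Agent.W2helper22.CW

open Finset Pool.Agent Pool.Agent.W2helper22.AL
open Pool.Agent.W2helper22.CU (IsNot Alternates)

section

variable {I : Type} {h s : ℕ} {c : ℕ → ℕ} {F : Set (((I → Bool) → Bool) × ℕ)}

/-- `x p` is false, by comparison of the numbers of ones with and without `p` -/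
def partW (r : (I → Bool) → ℕ) (m : ℕ) (W : List I) (j : ℕ) : (I → Bool) → Bool := fun x =>
  decide (∃ k < j, m + k ≤ W.countP (fun p => x p) ∧ r x < k + 1)

lemma partW_zero (r : (I → Bool) → ℕ) (m : ℕ) (W : List I) : partW r m W 0 = fun _ => false := by
  funext x
  simp [partW]

lemma partW_succ (r : (I → Bool) → ℕ) (m : ℕ) (W : List I) (j : ℕ) : partW r m W (j + 1) =
    fun x => partW r m W j x || (thr W (m + j) x && decide (r x < j + 1)) := by
  funext x
  unfold partW thr
  rw [← Bool.decide_and, ← Bool.decide_or]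
  apply decide_eq_decide.mpr
  constructor
  · rintro ⟨k, hk, h1⟩
    rcases Nat.lt_succ_iff_lt_or_eq.mp hk with h2 | h2
    · exact Or.inl ⟨k, h2, h1⟩
    · rw [h2] at h1; exact Or.inr h1
  · rintro (⟨k, hk, h1⟩ | h1)
    · exact ⟨k, hk.trans (Nat.lt_succ_self _), h1⟩
    · exact ⟨j, Nat.lt_succ_self _, h1⟩

lemma partW_av (r : (I → Bool) → ℕ) (m : ℕ) (W : List I) (hA : Av h s c F)
    (hW : ∀ k, (thr W k, 0) ∈ F) (hE : ∀ k, ((fun x => decide (r x < k)), h) ∈ F) :
    ∀ j, Av h (s + (1 + 2 * j)) c (insert (partW r m W j, h) F) := by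
  intro j
  induction j with
  | zero =>
    rw [partW_zero]
    exact (hA.const false).mono (by omega) (fun _ => le_rfl) (fun q hq => by
      rcases Set.mem_insert_iff.mp hq with rfl | hq
      · exact ⟨0, Nat.zero_le _, Or.inl rfl⟩
      · exact ⟨q.2, le_rfl, Or.inr hq⟩)
  | succ j ih =>
    have h0 : Av h (s + (1 + 2 * j)) c (insert (thr W (m + j), h) (insert (partW r m W j, h) F)) :=
      ih.mono le_rfl (fun _ => le_rfl) (fun q hq => by
        rcases Set.mem_insert_iff.mp hq with rfl | hq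
        · exact ⟨0, Nat.zero_le _, Or.inr (hW (m + j))⟩
        · exact ⟨q.2, le_rfl, hq⟩)
    have h1 := h0.and (f := thr W (m + j)) (g := fun x => decide (r x < j + 1)) (l := h)
      (Or.inl rfl) (Or.inr (Or.inr (hE (j + 1)))) le_rfl
    have h2 := h1.or (f := partW r m W j)
      (g := fun x => thr W (m + j) x && decide (r x < j + 1)) (l := h)
      (Or.inr (Or.inr (Or.inl rfl))) (Or.inl rfl) le_rfl
    rw [partW_succ]
    refine h2.mono (by omega) (fun _ => le_rfl) (fun q hq => ⟨q.2, le_rfl, ?_⟩)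
    rcases Set.mem_insert_iff.mp hq with rfl | hq
    · exact Or.inl rfl
    · exact Or.inr (Or.inr (Or.inr (Or.inr hq)))

lemma partW_many (r : (I → Bool) → ℕ) (m : ℕ) (W : I → List I) (K : ℕ) (hA : Av h s c F)
    (hW : ∀ p k, (thr (W p) k, 0) ∈ F)
    (hE : ∀ k, ((fun x => decide (r x < k)), h) ∈ F) :
    ∀ l : List I, Av h (s + (1 + 2 * K) * l.length) c
      (F ∪ {q | ∃ p ∈ l, q = (partW r m (W p) K, h)}) := by
  intro l
  induction l with
  | nil => exact hA.mono (by simp) (fun _ => le_rfl) (fun q hq => ⟨q.2, le_rfl, by simpa using hq⟩)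
  | cons p l ih =>
    have h1 := partW_av r m (W p) ih (fun k => Or.inl (hW p k)) (fun k => Or.inl (hE k)) K
    refine h1.mono ?_ (fun _ => le_rfl) (fun q hq => ⟨q.2, le_rfl, ?_⟩)
    · rw [List.length_cons, Nat.mul_succ]
      omega
    · rcases hq with hq | ⟨p', hp', hk⟩
      · exact Or.inr (Or.inl hq)
      · rcases List.mem_cons.mp hp' with rfl | hp'
        · exact Or.inl hk
        · exact Or.inr (Or.inr ⟨p', hp', hk⟩)

end

/-- the number of true inputs, from `m` on, in `[0, M)` -/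
def rr {I : Type} (E : List I) (m M : ℕ) (x : I → Bool) : ℕ :=
  min (E.countP (fun p => x p) - m) (M - 1)

lemma rr_thr {I : Type} (E : List I) (m M k : ℕ) :
    (fun x => decide (k ≤ rr E m M x)) = (fun _ => true) ∨
    (fun x => decide (k ≤ rr E m M x)) = (fun _ => false) ∨
    (fun x => decide (k ≤ rr E m M x)) = thr E (m + k) := by
  rcases Nat.eq_zero_or_pos k with h0 | h0
  · left
    funext x
    simp [h0]
  · rcases Nat.lt_or_ge (M - 1) k with h1 | h1
    · right; left
      funext x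
      rw [decide_eq_false_iff_not]
      unfold rr
      omega
    · right; right
      funext x
      unfold rr thr
      apply decide_eq_decide.mpr
      omega

lemma partW_eq {I : Type} [Fintype I] [DecidableEq I] (E : List I) (hE : E = (Finset.univ : Finset I).toList) (p : I)
    (m W M : ℕ) (hM : M = min W (Fintype.card I + 1)) (x : I → Bool)
    (h1 : m ≤ E.countP (fun p => x p)) (h2 : E.countP (fun p => x p) < m + W) :
    partW (rr E m M) m (E.erase p) M x = !(x p) := by
  have hlen : E.length = Fintype.card I := by rw [hE, Finset.length_toList, Finset.card_univ]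
  have hp : p ∈ E := by rw [hE, Finset.mem_toList]; exact mem_univ _
  have h3 : E.countP (fun p => x p) = (p :: E.erase p).countP (fun p => x p) :=
    (List.perm_cons_erase hp).countP_eq _
  rw [List.countP_cons] at h3
  have h4 : E.countP (fun p => x p) ≤ E.length := List.countP_le_length
  have hr : rr E m M x = E.countP (fun p => x p) - m := by
    unfold rr
    omega
  have hrM : rr E m M x < M := by
    rw [hr]
    omega
  unfold partW
  cases hx : x p with
  | false =>
    rw [hx] at h3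
    simp only [Bool.false_eq_true, if_false, add_zero] at h3
    simp only [Bool.not_false, decide_eq_true_eq]
    exact ⟨rr E m M x, hrM, by omega, by omega⟩
  | true =>
    rw [hx] at h3
    simp only [if_true] at h3
    simp only [Bool.not_true, decide_eq_false_iff_not]
    rintro ⟨k, _, h5, h6⟩
    omega

open Classical in
/-- **Upper bound on windows.** -/
theorem upperW {N : ℕ} (C : H540R2.Circuit N) (h : ℕ) (t : ℕ → ℕ) (m W : ℕ) (hW1 : 1 ≤ W)
    (hWt : W ≤ ∏ l ∈ range h, (t l + 1)) :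
    ∃ (C' : H540R2.Circuit N) (lev : ℕ → ℕ),
      (∀ x, m ≤ W953.NW.wt x → W953.NW.wt x < m + W → C'.eval x = C.eval x) ∧
      C'.size ≤ 2 * C.size + 8 * (N + 2) ^ 3 + 8 * (N + 2 + ∑ l ∈ range h, t l) * (h + 1) ∧
      CU.Nesting C' h lev ∧
      ∀ l < h, ((range C'.size).filter (fun g => IsNot C' g ∧ lev g = l + 1)).card ≤ t l := by
  obtain ⟨E, hE⟩ : ∃ E, E = (Finset.univ : Finset (Fin N)).toList := ⟨_, rfl⟩
  have hlen : E.length = N := by rw [hE, Finset.length_toList, Finset.card_univ, Fintype.card_fin]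
  have hmem : ∀ p, p ∈ E := fun p => by rw [hE, Finset.mem_toList]; exact mem_univ _
  have hwt : ∀ x : Fin N → Bool, E.countP (fun p => x p) = W953.NW.wt x := fun x => by
    unfold W953.NW.wt
    have e : (fun p => x p) = fun p => decide (x p = true) := by funext p; simp
    rw [e, hE, ← Multiset.coe_countP, Finset.coe_toList, Multiset.countP_eq_card_filter]
    rfl
  obtain ⟨M, hM⟩ : ∃ M, M = min W (N + 1) := ⟨_, rfl⟩
  have hM1 : 1 ≤ M := by omega
  have hMN : M ≤ N + 1 := by omega
  -- thresholds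
  have a1 := W2helper68.AL.thr_ok (Fin N) h 0 (fun _ => 0) ∅ E Av.empty
  have a2 := thr_many W2helper68.AL.thr_ok (fun p => E.erase p) N
    (fun p => List.length_erase_le.trans hlen.le) a1 E
  have a2' : Av h _ _ (((∅ ∪ {q | ∃ k, q = (thr E k, 0)}) ∪
      {q | ∃ p ∈ E, ∃ k, q = (thr (E.erase p) k, 0)}) ∪
      {q | ∃ k, q = ((fun x => decide (k ≤ rr E m M x)), 0)}) :=
    ((a2.const true).const false).mono le_rfl (fun _ => le_rfl) (fun q hq => by
      rcases hq with hq | ⟨k, rfl⟩
      · exact ⟨q.2, le_rfl, Or.inr (Or.inr hq)⟩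
      · refine ⟨0, le_rfl, ?_⟩
        rcases rr_thr E m M k with h1 | h1 | h1
        · exact Or.inr (Or.inl (by rw [h1]))
        · exact Or.inl (by rw [h1])
        · exact Or.inr (Or.inr (Or.inl (Or.inr ⟨m + k, by rw [h1]⟩))))
  have a3 := W2helper19.AL.neg (Fin N) t h h 0 _ M (fun _ => 0) _ (rr E m M) (by omega)
    (fun x => by unfold rr; omega) (by
      simp only [Nat.zero_add]
      omega)
    (fun k => Or.inr ⟨k, rfl⟩) a2'
  have a4 := partW_many (rr E m M) m (fun p => E.erase p) M a3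
    (fun p k => Or.inl (Or.inl (Or.inr ⟨p, hmem p, k, rfl⟩))) (fun k => by
      refine Or.inr ⟨k, ?_⟩
      rw [Nat.zero_add]) E
  have a5 := inp_many a4 E
  obtain ⟨f, hf, a6⟩ := dualW (h := h) {x | m ≤ W953.NW.wt x ∧ W953.NW.wt x < m + W}
    (fun p => partW (rr E m M) m (E.erase p) M) (fun p x hx => partW_eq E hE p m W M
      (by rw [hM, Fintype.card_fin]) x (by rw [hwt]; exact hx.1) (by rw [hwt]; exact hx.2)) C
    (F := {q | (∃ p, q = ((fun x => x p), h)) ∨ ∃ p, q = (partW (rr E m M) m (E.erase p) M, h)})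
    (fun p => Or.inl ⟨p, rfl⟩) (fun p => Or.inr ⟨p, rfl⟩)
    (a5.mono le_rfl (fun _ => le_rfl) (fun q hq => by
      rcases hq with ⟨p, rfl⟩ | ⟨p, rfl⟩
      · exact ⟨0, Nat.zero_le _, Or.inr ⟨p, hmem p, rfl⟩⟩
      · exact ⟨h, le_rfl, Or.inl (Or.inr ⟨p, hmem p, rfl⟩)⟩))
  obtain ⟨L, c', hP, hLh, hLs, hc', hF⟩ := a6
  obtain ⟨i, hi, hiL⟩ := hF _ rfl
  obtain ⟨C1, lev1, hev1, hs1, hnest1, hcount1⟩ := W2helper85.AL.real (Fin N) h L c' _ i hP hLh hiL
  obtain ⟨C', lev, hev, hs', hnest, hcount⟩ := conv C1 h lev1 hnest1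
  refine ⟨C', lev, fun x hx1 hx2 => ?_, ?_, hnest, fun l hl => ?_⟩
  · rw [hev, hev1]
    exact hf x ⟨hx1, hx2⟩
  · rw [hs', hs1]
    refine hLs.trans ?_
    have e1 : (∑ j ∈ range h, t (0 + j)) = ∑ l ∈ range h, t l := by simp
    simp only [hlen, e1]
    obtain ⟨S0, hS0⟩ : ∃ S, S = ∑ l ∈ range h, t l := ⟨_, rfl⟩
    rw [← hS0]
    have e2 : (N + 2) ^ 3 = N ^ 3 + 6 * N ^ 2 + 12 * N + 8 := by ring
    rw [e2]
    have e3 : 8 * (M + 1 + S0) * (h + 1) ≤ 8 * (N + 2 + S0) * (h + 1) :=
      Nat.mul_le_mul_right _ (Nat.mul_le_mul_left _ (by omega))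
    have e4 : (1 + 2 * M) * N ≤ (1 + 2 * (N + 1)) * N := by gcongr
    have e5 : (2 * (N + 2) + 2) * (N + 1) + ((2 * (N + 2) + 2) * (N + 1)) * N + (1 + 2 * (N + 1)) * N + N + 4
        ≤ 8 * (N ^ 3 + 6 * N ^ 2 + 12 * N + 8) := by
      ring_nf
      nlinarith [Nat.zero_le (N ^ 2), Nat.zero_le (N ^ 3)]
    omega
  · refine (hcount (l + 1)).trans (le_trans (le_of_eq ?_) ((hcount1 (l + 1)).trans (hc' (l + 1)) |>.trans ?_))
    · rw [← Set.ncard_coe_finset]
      congr 1
      ext g
      simp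
    · simp only [Nat.zero_add]
      rw [if_pos ⟨Nat.succ_pos l, hl⟩]
      simp

end Pool.Agent.W2helper22.CW
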